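import Pool.Agent.Helper21.RB.Base

/-!
# Project RB, module A: stable complements (Maschke) and irreducible subspaces
-/

namespace SB

universe u v

variable {Γ : Type u} [Group Γ] {V : Type v} [AddCommGroup V] [Module ℂ V]

/-- Maschke for a finite group and a stable subspace, with a complement stable under the group. -/
private theorem maschke_A {Q : Type u} [Group Q] [Finite Q] [FiniteDimensional ℂ V]
    (σ : Q →* (V →ₗ[ℂ] V)) (H : Subgroup Q) {X : Submodule ℂ V} (hX : ∀ u ∈ H, ∀ v ∈ X, σ u v ∈ X) :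
    ∃ Z : Submodule ℂ V, (∀ u ∈ H, ∀ v ∈ Z, σ u v ∈ Z) ∧ IsCompl X Z := by
  classical
  have : Fintype H := Fintype.ofFinite H
  obtain ⟨p, hp⟩ := X.subtype.exists_leftInverse_of_injective (Submodule.ker_subtype X)
  have hpx : ∀ x ∈ X, ((p x : X) : V) = x := by
    intro x hx
    have h := congrArg (fun f : X →ₗ[ℂ] X => ((f ⟨x, hx⟩ : X) : V)) hp
    exact h
  have hinv : ∀ (u : Q) (v : V), σ u (σ u⁻¹ v) = v := by
    intro u v
    rw [← Module.End.mul_apply, ← map_mul, mul_inv_cancel, map_one]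
    rfl
  have hcard : ((Fintype.card H : ℕ) : ℂ) ≠ 0 := Nat.cast_ne_zero.2 Fintype.card_ne_zero
  let S : V →ₗ[ℂ] V := ∑ u : H, (σ (u : Q)) ∘ₗ (X.subtype ∘ₗ p) ∘ₗ (σ ((u : Q)⁻¹))
  have hS : ∀ v, S v = ∑ u : H, σ (u : Q) ((p (σ ((u : Q)⁻¹) v) : X) : V) := by
    intro v
    simp only [S, LinearMap.sum_apply]
    rfl
  have hcomm : ∀ g ∈ H, ∀ v, S (σ g v) = σ g (S v) := by
    intro g hg v
    rw [hS, hS, map_sum]
    refine (Fintype.sum_equiv (Equiv.mulLeft (⟨g, hg⟩ : H)) _ _ fun u => ?_).symm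
    have e1 : (((Equiv.mulLeft (⟨g, hg⟩ : H)) u : H) : Q) = g * u := rfl
    rw [e1, map_mul, mul_inv_rev, map_mul, Module.End.mul_apply, Module.End.mul_apply]
    have e2 : σ g⁻¹ (σ g v) = v := by
      have h := hinv g⁻¹ v
      rwa [inv_inv] at h
    rw [e2]
  let P : V →ₗ[ℂ] V := ((Fintype.card H : ℕ) : ℂ)⁻¹ • S
  have hP : LinearMap.IsProj X P := by
    refine ⟨fun v => ?_, fun v hv => ?_⟩
    · show ((Fintype.card H : ℕ) : ℂ)⁻¹ • S v ∈ X
      rw [hS]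
      exact X.smul_mem _ (X.sum_mem fun u _ => hX _ u.2 _ (p _).2)
    · show ((Fintype.card H : ℕ) : ℂ)⁻¹ • S v = v
      rw [hS]
      have e : ∀ u : H, σ (u : Q) ((p (σ ((u : Q)⁻¹) v) : X) : V) = v := by
        intro u
        rw [hpx _ (hX _ (H.inv_mem u.2) v hv), hinv]
      rw [Finset.sum_congr rfl fun u _ => e u, Finset.sum_const, Finset.card_univ,
        ← Nat.cast_smul_eq_nsmul ℂ, smul_smul, inv_mul_cancel₀ hcard, one_smul]
  refine ⟨LinearMap.ker P, fun u hu v hv => ?_, hP.isCompl⟩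
  rw [LinearMap.mem_ker] at hv ⊢
  show ((Fintype.card H : ℕ) : ℂ)⁻¹ • S (σ u v) = 0
  rw [hcomm u hu v, ← map_smul]
  have h : ((Fintype.card H : ℕ) : ℂ)⁻¹ • S v = 0 := hv
  rw [h, map_zero]

/-- RB-A1 (Maschke). -/
theorem exists_compl [FiniteDimensional ℂ V] (ρ : Γ →* (V →ₗ[ℂ] V)) {M : Subgroup Γ} (hM : M.Normal)
    (hf : M.FiniteIndex) (hρ : ∀ g ∈ M, ρ g = 1) (U : Subgroup Γ) {X : Submodule ℂ V} (hX : Stb ρ U X) :
    ∃ Z : Submodule ℂ V, Stb ρ U Z ∧ IsCompl X Z := by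
  have : Finite (Γ ⧸ M) := Subgroup.finite_quotient_of_finiteIndex
  let σ : Γ ⧸ M →* (V →ₗ[ℂ] V) := QuotientGroup.lift M ρ hρ
  have hσ : ∀ g : Γ, σ (QuotientGroup.mk' M g) = ρ g := fun g => rfl
  obtain ⟨Z, h1, h2⟩ := maschke_A (V := V) σ (U.map (QuotientGroup.mk' M)) (X := X) (by
    rintro q ⟨u, hu, rfl⟩ v hv
    rw [hσ]
    exact hX u hu v hv)
  refine ⟨Z, fun u hu v hv => ?_, h2⟩
  rw [← hσ]
  exact h1 _ ⟨u, hu, rfl⟩ v hv

/-- RB-A2. -/
theorem exists_irr [FiniteDimensional ℂ V] (ρ : Γ →* (V →ₗ[ℂ] V)) (N : Subgroup Γ) {Y : Submodule ℂ V}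
    (hY : Stb ρ N Y) (h0 : Y ≠ ⊥) : ∃ X ≤ Y, IrrOn ρ N X := by
  induction hn : Module.finrank ℂ Y using Nat.strong_induction_on generalizing Y with
  | _ n ih =>
    by_cases h : IrrOn ρ N Y
    · exact ⟨Y, le_rfl, h⟩
    · have h1 : ∃ Y' ≤ Y, Stb ρ N Y' ∧ Y' ≠ ⊥ ∧ Y' ≠ Y := by
        by_contra hc
        push Not at hc
        refine h ⟨h0, hY, fun Y' hle hs => ?_⟩
        by_cases hb : Y' = ⊥
        · exact Or.inl hb
        · exact Or.inr (hc Y' hle hs hb)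
      obtain ⟨Y', hle, hs, hb, hne⟩ := h1
      have hlt : Module.finrank ℂ Y' < Module.finrank ℂ Y :=
        Submodule.finrank_lt_finrank_of_lt (lt_of_le_of_ne hle hne)
      obtain ⟨X, hX, hI⟩ := ih _ (hn ▸ hlt) hs hb rfl
      exact ⟨X, hX.trans hle, hI⟩

end SB
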