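import Pool.Agent.Helper21.RB.Base

/-!
# Project RB, module B1: the eigenvector trick
-/

namespace SB

universe u v

variable {Γ : Type u} [Group Γ] {V : Type v} [AddCommGroup V] [Module ℂ V]

private theorem rho_mul_B1 (ρ : Γ →* (V →ₗ[ℂ] V)) (a b : Γ) (x : V) :
    ρ (a * b) x = ρ a (ρ b x) := by
  rw [map_mul]
  rfl

private theorem rho_inv_B1 (ρ : Γ →* (V →ₗ[ℂ] V)) (g : Γ) (x : V) : ρ g (ρ g⁻¹ x) = x := by
  rw [← rho_mul_B1, mul_inv_cancel, map_one]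
  rfl

private theorem rho_inv'_B1 (ρ : Γ →* (V →ₗ[ℂ] V)) (g : Γ) (x : V) : ρ g⁻¹ (ρ g x) = x := by
  rw [← rho_mul_B1, inv_mul_cancel, map_one]
  rfl

/-- RB-B1 (the eigenvector trick). -/
theorem eig_trick [FiniteDimensional ℂ V] (ρ : Γ →* (V →ₗ[ℂ] V)) {L K : Subgroup Γ} {s : Γ}
    (hLK : L ≤ K)
    (hn : ∀ k ∈ K, ∀ l ∈ L, k * l * k⁻¹ ∈ L) (hs : s ∈ K)
    (hgen : ∀ k ∈ K, ∃ i : ℕ, (s ^ i)⁻¹ * k ∈ L)
    (hK : IrrOn ρ K ⊤) (hL : ¬ IrrOn ρ L ⊤) {X : Submodule ℂ V} (hX : IrrOn ρ L X) :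
    ¬ IsoOn ρ L X (X.map (ρ s)) := by
  rintro ⟨f, hf⟩
  apply hL
  obtain ⟨hX0, hXs, hXi⟩ := hX
  -- the map `τ`
  have hτ : ∀ x : X, (ρ s⁻¹) ((f x : X.map (ρ s)) : V) ∈ X := by
    intro x
    obtain ⟨y, hy, hy'⟩ := (f x).2
    rw [← hy', rho_inv'_B1]
    exact hy
  let τ : X →ₗ[ℂ] X :=
    LinearMap.codRestrict X ((ρ s⁻¹) ∘ₗ (X.map (ρ s)).subtype ∘ₗ f.toLinearMap) hτ
  have τv : ∀ x : X, ((τ x : X) : V) = ρ s⁻¹ ((f x : X.map (ρ s)) : V) := fun x => rfl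
  have τsurj : ∀ y : X, ∃ x : X, τ x = y := by
    intro y
    refine ⟨f.symm ⟨ρ s y, ⟨y, y.2, rfl⟩⟩, ?_⟩
    apply Subtype.ext
    rw [τv, LinearEquiv.apply_symm_apply]
    exact rho_inv'_B1 ρ s y
  -- the space of intertwiners
  let E : Submodule ℂ (X →ₗ[ℂ] V) :=
    { carrier := {h | ∀ l ∈ L, ∀ x x' : X, (x' : V) = ρ l x → h x' = ρ l (h x)}
      add_mem' := by
        intro a b ha hb l hl x x' hx
        rw [LinearMap.add_apply, LinearMap.add_apply, ha l hl x x' hx, hb l hl x x' hx, map_add]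
      zero_mem' := by
        intro l hl x x' hx
        simp
      smul_mem' := by
        intro c a ha l hl x x' hx
        rw [LinearMap.smul_apply, LinearMap.smul_apply, ha l hl x x' hx, map_smul] }
  have memE : ∀ h : X →ₗ[ℂ] V, h ∈ E ↔
      ∀ l ∈ L, ∀ x x' : X, (x' : V) = ρ l x → h x' = ρ l (h x) := fun h => Iff.rfl
  let Θ : (X →ₗ[ℂ] V) →ₗ[ℂ] (X →ₗ[ℂ] V) :=
    { toFun := fun h => (ρ s) ∘ₗ h ∘ₗ τ
      map_add' := by
        intro a b
        ext x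
        simp
      map_smul' := by
        intro c a
        ext x
        simp }
  have Θv : ∀ h x, Θ h x = ρ s (h (τ x)) := fun h x => rfl
  have hΘ : ∀ h ∈ E, Θ h ∈ E := by
    intro h hh l hl x x' hx
    have hl' : s⁻¹ * l * s ∈ L := by
      have := hn s⁻¹ (K.inv_mem hs) l hl
      rwa [inv_inv] at this
    have h1 : ((τ x' : X) : V) = ρ (s⁻¹ * l * s) (τ x) := by
      rw [τv, τv, hf l hl x x' hx, rho_mul_B1, rho_mul_B1, rho_inv_B1]
    rw [Θv, Θv, hh _ hl' _ _ h1, ← rho_mul_B1, ← rho_mul_B1]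
    congr 2
    group
  have hsub : X.subtype ∈ E := by
    intro l hl x x' hx
    exact hx
  have : Nontrivial E := by
    refine ⟨⟨⟨X.subtype, hsub⟩, 0, fun h => hX0 ?_⟩⟩
    rw [Submodule.eq_bot_iff]
    intro x hx
    have h1 : X.subtype = 0 := congrArg Subtype.val h
    have h2 := LinearMap.congr_fun h1 ⟨x, hx⟩
    simpa using h2
  obtain ⟨μ, hμ⟩ := Module.End.exists_eigenvalue (Θ.restrict hΘ)
  obtain ⟨⟨h, hE⟩, hv⟩ := hμ.exists_hasEigenvector
  have hne : h ≠ 0 := by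
    intro h0
    apply hv.2
    apply Subtype.ext
    exact h0
  have heig : ∀ x, ρ s (h (τ x)) = μ • h x := by
    intro x
    have h1 := congrArg Subtype.val hv.apply_eq_smul
    have h2 := LinearMap.congr_fun h1 x
    exact h2
  -- the range of `h`
  have hRs : ∀ y ∈ LinearMap.range h, ρ s y ∈ LinearMap.range h := by
    rintro _ ⟨x, rfl⟩
    obtain ⟨x₁, rfl⟩ := τsurj x
    rw [heig]
    exact ⟨μ • x₁, by rw [map_smul]⟩
  have hRl : ∀ l ∈ L, ∀ y ∈ LinearMap.range h, ρ l y ∈ LinearMap.range h := by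
    rintro l hl _ ⟨x, rfl⟩
    exact ⟨⟨ρ l x, hXs l hl x x.2⟩, hE l hl x _ rfl⟩
  have hRp : ∀ i : ℕ, ∀ y ∈ LinearMap.range h, ρ (s ^ i) y ∈ LinearMap.range h := by
    intro i
    induction i with
    | zero =>
      intro y hy
      rw [pow_zero, map_one]
      exact hy
    | succ i ih =>
      intro y hy
      rw [pow_succ, rho_mul_B1]
      exact ih _ (hRs y hy)
  have hRK : Stb ρ K (LinearMap.range h) := by
    intro k hk y hy
    obtain ⟨i, hi⟩ := hgen k hk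
    have h1 : k = s ^ i * ((s ^ i)⁻¹ * k) := by group
    rw [h1, rho_mul_B1]
    exact hRp i _ (hRl _ hi y hy)
  have hR : LinearMap.range h = ⊤ := by
    rcases hK.2.2 _ le_top hRK with h0 | h0
    · exact absurd (LinearMap.range_eq_bot.1 h0) hne
    · exact h0
  refine ⟨hK.1, fun _ _ _ _ => trivial, fun Y _ hY => ?_⟩
  have hst : Stb ρ L ((Y.comap h).map X.subtype) := by
    rintro l hl _ ⟨x, hx, rfl⟩
    refine ⟨⟨ρ l x, hXs l hl x x.2⟩, ?_, rfl⟩
    change h _ ∈ Y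
    rw [hE l hl x _ rfl]
    exact hY l hl _ hx
  have hle : (Y.comap h).map X.subtype ≤ X := by
    rintro _ ⟨x, -, rfl⟩
    exact x.2
  rcases hXi _ hle hst with h0 | h0
  · left
    rw [Submodule.eq_bot_iff]
    intro y hy
    have : y ∈ LinearMap.range h := by rw [hR]; trivial
    obtain ⟨x, rfl⟩ := this
    have h1 : (x : V) ∈ (Y.comap h).map X.subtype := ⟨x, hy, rfl⟩
    rw [h0, Submodule.mem_bot] at h1
    have h2 : x = 0 := Subtype.ext h1
    rw [h2, map_zero]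
  · right
    rw [eq_top_iff]
    intro y _
    have : y ∈ LinearMap.range h := by rw [hR]; trivial
    obtain ⟨x, rfl⟩ := this
    have h1 : (x : V) ∈ (Y.comap h).map X.subtype := by rw [h0]; exact x.2
    obtain ⟨x', hx', hxx⟩ := h1
    have h2 : x' = x := Subtype.ext hxx
    rw [← h2]
    exact hx'

end SB
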