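import Pool.Agent.Helper21.RB.Base

/-!
# Project RB, module B3: irreducible subspaces, Schur's lemma
-/

namespace SB

universe u v

variable {Γ : Type u} [Group Γ] {V : Type v} [AddCommGroup V] [Module ℂ V]

theorem rho_mul_B3 (ρ : Γ →* (V →ₗ[ℂ] V)) (a b : Γ) (x : V) : ρ (a * b) x = ρ a (ρ b x) := by
  rw [map_mul]
  rfl

theorem rho_inv_B3 (ρ : Γ →* (V →ₗ[ℂ] V)) (g : Γ) (x : V) : ρ g (ρ g⁻¹ x) = x := by
  rw [← rho_mul_B3, mul_inv_cancel, map_one]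
  rfl

theorem rho_inv'_B3 (ρ : Γ →* (V →ₗ[ℂ] V)) (g : Γ) (x : V) : ρ g⁻¹ (ρ g x) = x := by
  rw [← rho_mul_B3, inv_mul_cancel, map_one]
  rfl

/-- RB-B2. -/
theorem irr_map (ρ : Γ →* (V →ₗ[ℂ] V)) {L : Subgroup Γ} {g : Γ} (h1 : ∀ l ∈ L, g * l * g⁻¹ ∈ L)
    (h2 : ∀ l ∈ L, g⁻¹ * l * g ∈ L) {X : Submodule ℂ V} (hX : IrrOn ρ L X) :
    IrrOn ρ L (X.map (ρ g)) := by
  obtain ⟨hne, hst, hirr⟩ := hX
  have key : ∀ Y : Submodule ℂ V, (Y.map (ρ g⁻¹)).map (ρ g) = Y := by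
    intro Y
    ext y
    constructor
    · rintro ⟨_, ⟨y', hy', rfl⟩, rfl⟩
      rwa [rho_inv_B3]
    · intro hy
      exact ⟨ρ g⁻¹ y, ⟨y, hy, rfl⟩, rho_inv_B3 ρ g y⟩
  refine ⟨fun h => hne ?_, ?_, ?_⟩
  · rw [Submodule.eq_bot_iff]
    intro x hx
    have h3 : ρ g x ∈ X.map (ρ g) := ⟨x, hx, rfl⟩
    rw [h, Submodule.mem_bot] at h3
    rw [← rho_inv'_B3 ρ g x, h3, map_zero]
  · rintro l hl _ ⟨x, hx, rfl⟩
    refine ⟨ρ (g⁻¹ * l * g) x, hst _ (h2 l hl) x hx, ?_⟩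
    rw [← rho_mul_B3, ← rho_mul_B3]
    congr 2
    group
  · intro Y hY hYs
    have h3 : Y.map (ρ g⁻¹) ≤ X := by
      rintro _ ⟨y, hy, rfl⟩
      obtain ⟨x, hx, rfl⟩ := hY hy
      rw [rho_inv'_B3]
      exact hx
    have h4 : Stb ρ L (Y.map (ρ g⁻¹)) := by
      rintro l hl _ ⟨y, hy, rfl⟩
      refine ⟨ρ (g * l * g⁻¹) y, hYs _ (h1 l hl) y hy, ?_⟩
      rw [← rho_mul_B3, ← rho_mul_B3]
      congr 2
      group
    rcases hirr _ h3 h4 with h | h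
    · left
      rw [← key Y, h, Submodule.map_bot]
    · right
      rw [← key Y, h]

theorem stb_inf_B3 {ρ : Γ →* (V →ₗ[ℂ] V)} {L : Subgroup Γ} {X Y : Submodule ℂ V} (hX : Stb ρ L X)
    (hY : Stb ρ L Y) : Stb ρ L (X ⊓ Y) :=
  fun l hl v hv => ⟨hX l hl v hv.1, hY l hl v hv.2⟩

theorem stb_iff_B3 {ρ : Γ →* (V →ₗ[ℂ] V)} {L : Subgroup Γ} {X : Submodule ℂ V} :
    Stb ρ L X ↔ ∀ l ∈ L, X ≤ X.comap (ρ l) := Iff.rfl

theorem stb_iSup_B3 {κ : Sort*} {ρ : Γ →* (V →ₗ[ℂ] V)} {L : Subgroup Γ} {X : κ → Submodule ℂ V}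
    (hX : ∀ i, Stb ρ L (X i)) : Stb ρ L (⨆ i, X i) := by
  rw [stb_iff_B3]
  intro l hl
  refine iSup_le fun i => ?_
  intro v hv
  exact (le_iSup X i) (hX i l hl v hv)

theorem stb_bot_B3 {ρ : Γ →* (V →ₗ[ℂ] V)} {L : Subgroup Γ} : Stb ρ L (⊥ : Submodule ℂ V) := by
  intro l _ v hv
  rw [Submodule.mem_bot] at hv ⊢
  rw [hv, map_zero]

theorem isoOn_trans_B3 {ρ : Γ →* (V →ₗ[ℂ] V)} {L : Subgroup Γ} {X Y Z : Submodule ℂ V}
    (h : IsoOn ρ L X Y) (h' : IsoOn ρ L Y Z) : IsoOn ρ L X Z := by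
  obtain ⟨f, hf⟩ := h
  obtain ⟨g, hg⟩ := h'
  exact ⟨f.trans g, fun n hn x x' hx => hg n hn (f x) (f x') (hf n hn x x' hx)⟩

theorem isoOn_symm_B3 {ρ : Γ →* (V →ₗ[ℂ] V)} {L : Subgroup Γ} {X Y : Submodule ℂ V}
    (hX : Stb ρ L X) (h : IsoOn ρ L X Y) : IsoOn ρ L Y X := by
  obtain ⟨f, hf⟩ := h
  refine ⟨f.symm, fun n hn y y' hy => ?_⟩
  have h1 := hf n hn (f.symm y) ⟨ρ n (f.symm y), hX n hn _ (f.symm y).2⟩ rfl
  rw [LinearEquiv.apply_symm_apply, ← hy] at h1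
  have h2 : f ⟨ρ n (f.symm y), hX n hn _ (f.symm y).2⟩ = y' := Subtype.ext h1
  rw [← h2, LinearEquiv.symm_apply_apply]

/-- Schur's lemma: an irreducible subspace of `Z ⊕ W` which meets `Z` trivially is isomorphic to the
irreducible subspace `W`. -/
theorem schur_B3 {ρ : Γ →* (V →ₗ[ℂ] V)} {L : Subgroup Γ} {Y Z W : Submodule ℂ V}
    (hY : IrrOn ρ L Y) (hZ : Stb ρ L Z) (hW : IrrOn ρ L W) (hle : Y ≤ Z ⊔ W) (hYZ : Y ⊓ Z = ⊥)
    (hWZ : W ⊓ Z = ⊥) : IsoOn ρ L Y W := by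
  have ia : Function.Injective (Z.mkQ ∘ₗ Y.subtype) := by
    rw [← LinearMap.ker_eq_bot, Submodule.eq_bot_iff]
    intro y hy
    have h1 : (y : V) ∈ Z := by
      rw [LinearMap.mem_ker, LinearMap.comp_apply, Submodule.mkQ_apply,
        Submodule.Quotient.mk_eq_zero] at hy
      exact hy
    have h2 : (y : V) ∈ Y ⊓ Z := ⟨y.2, h1⟩
    rw [hYZ, Submodule.mem_bot] at h2
    exact Subtype.ext h2
  have ib : Function.Injective (Z.mkQ ∘ₗ W.subtype) := by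
    rw [← LinearMap.ker_eq_bot, Submodule.eq_bot_iff]
    intro y hy
    have h1 : (y : V) ∈ Z := by
      rw [LinearMap.mem_ker, LinearMap.comp_apply, Submodule.mkQ_apply,
        Submodule.Quotient.mk_eq_zero] at hy
      exact hy
    have h2 : (y : V) ∈ W ⊓ Z := ⟨y.2, h1⟩
    rw [hWZ, Submodule.mem_bot] at h2
    exact Subtype.ext h2
  have hr : ∀ y : Y, (Z.mkQ ∘ₗ Y.subtype) y ∈ LinearMap.range (Z.mkQ ∘ₗ W.subtype) := by
    intro y
    obtain ⟨z, hz, w, hw, hzw⟩ := Submodule.mem_sup.1 (hle y.2)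
    refine ⟨⟨w, hw⟩, ?_⟩
    rw [LinearMap.comp_apply, LinearMap.comp_apply, Submodule.mkQ_apply, Submodule.mkQ_apply,
      Submodule.Quotient.eq]
    have h1 : (Submodule.subtype W ⟨w, hw⟩ : V) - Submodule.subtype Y y = -z := by
      rw [Submodule.subtype_apply, Submodule.subtype_apply, ← hzw]
      abel
    rw [h1]
    exact Z.neg_mem hz
  let f : Y →ₗ[ℂ] W := (LinearEquiv.ofInjective _ ib).symm.toLinearMap ∘ₗ
    LinearMap.codRestrict (LinearMap.range (Z.mkQ ∘ₗ W.subtype)) (Z.mkQ ∘ₗ Y.subtype) hr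
  have hf : ∀ y : Y, (y : V) - (f y : V) ∈ Z := by
    intro y
    have h1 : (LinearEquiv.ofInjective _ ib) (f y) =
        LinearMap.codRestrict (LinearMap.range (Z.mkQ ∘ₗ W.subtype)) (Z.mkQ ∘ₗ Y.subtype) hr y :=
      LinearEquiv.apply_symm_apply _ _
    have h2 : Z.mkQ (f y : V) = Z.mkQ (y : V) := congrArg Subtype.val h1
    rw [Submodule.mkQ_apply, Submodule.mkQ_apply, eq_comm, Submodule.Quotient.eq] at h2
    exact h2
  have huniq : ∀ a ∈ W, ∀ b ∈ W, a - b ∈ Z → a = b := by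
    intro a ha b hb hab
    have h1 : a - b ∈ W ⊓ Z := ⟨W.sub_mem ha hb, hab⟩
    rw [hWZ, Submodule.mem_bot] at h1
    exact sub_eq_zero.1 h1
  have finj : Function.Injective f := by
    rw [← LinearMap.ker_eq_bot, Submodule.eq_bot_iff]
    intro y hy
    have h1 := hf y
    rw [LinearMap.mem_ker] at hy
    rw [hy, Submodule.coe_zero, sub_zero] at h1
    have h2 : (y : V) ∈ Y ⊓ Z := ⟨y.2, h1⟩
    rw [hYZ, Submodule.mem_bot] at h2
    exact Subtype.ext h2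
  have hequi : ∀ n ∈ L, ∀ x x' : Y, (x' : V) = ρ n x → ((f x' : W) : V) = ρ n (f x) := by
    intro n hn x x' hx
    refine huniq _ (f x').2 _ (hW.2.1 n hn _ (f x).2) ?_
    have h1 := hf x'
    have h2 := hZ n hn _ (hf x)
    rw [map_sub, ← hx] at h2
    have h3 := Z.sub_mem h2 h1
    have h4 : (x' : V) - ρ n (f x) - ((x' : V) - (f x' : V)) = (f x' : V) - ρ n (f x) := by abel
    rwa [h4] at h3
  have fsurj : Function.Surjective f := by
    have h1 : (LinearMap.range f).map W.subtype ≤ W := Submodule.map_subtype_le _ _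
    have h2 : Stb ρ L ((LinearMap.range f).map W.subtype) := by
      rintro n hn _ ⟨_, ⟨y, rfl⟩, rfl⟩
      refine ⟨f ⟨ρ n y, hY.2.1 n hn _ y.2⟩, ⟨_, rfl⟩, ?_⟩
      exact hequi n hn y ⟨ρ n y, hY.2.1 n hn _ y.2⟩ rfl
    rcases hW.2.2 _ h1 h2 with h | h
    · exfalso
      apply hY.1
      rw [Submodule.eq_bot_iff]
      intro y hy
      have h3 : (f ⟨y, hy⟩ : V) ∈ (LinearMap.range f).map W.subtype := ⟨f ⟨y, hy⟩, ⟨_, rfl⟩, rfl⟩
      rw [h, Submodule.mem_bot] at h3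
      have h4 : f ⟨y, hy⟩ = f 0 := by
        rw [map_zero]
        exact Subtype.ext h3
      have h5 := finj h4
      exact congrArg Subtype.val h5
    · intro w
      have h3 : (w : V) ∈ (LinearMap.range f).map W.subtype := by
        rw [h]
        exact w.2
      obtain ⟨_, ⟨y, rfl⟩, hy⟩ := h3
      exact ⟨y, Subtype.ext hy⟩
  exact ⟨LinearEquiv.ofBijective f ⟨finj, fsurj⟩, hequi⟩

/-- An irreducible subspace of a finite sum of irreducible subspaces is isomorphic to one of them. -/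
theorem exists_iso_B3 {ι : Type*} {ρ : Γ →* (V →ₗ[ℂ] V)} {L : Subgroup Γ}
    {X : ι → Submodule ℂ V} (hX : ∀ i, IrrOn ρ L (X i)) {Y : Submodule ℂ V} (hY : IrrOn ρ L Y)
    (s : Finset ι) (h : Y ≤ ⨆ j ∈ s, X j) : ∃ j ∈ s, IsoOn ρ L Y (X j) := by
  classical
  induction s using Finset.induction_on with
  | empty =>
    exfalso
    apply hY.1
    simpa using h
  | insert a s ha ih =>
    have hZ : Stb ρ L (⨆ j ∈ s, X j) := stb_iSup_B3 fun j => stb_iSup_B3 fun _ => (hX j).2.1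
    rw [Finset.iSup_insert, sup_comm] at h
    rcases hY.2.2 (Y ⊓ ⨆ j ∈ s, X j) inf_le_left (stb_inf_B3 hY.2.1 hZ) with h1 | h1
    · rcases (hX a).2.2 (X a ⊓ ⨆ j ∈ s, X j) inf_le_left (stb_inf_B3 (hX a).2.1 hZ) with h2 | h2
      · exact ⟨a, Finset.mem_insert_self _ _, schur_B3 hY hZ (hX a) h h1 h2⟩
      · rw [inf_eq_left] at h2
        rw [sup_eq_left.2 h2] at h
        obtain ⟨j, hj, hj'⟩ := ih h
        exact ⟨j, Finset.mem_insert_of_mem hj, hj'⟩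
    · rw [inf_eq_left] at h1
      obtain ⟨j, hj, hj'⟩ := ih h1
      exact ⟨j, Finset.mem_insert_of_mem hj, hj'⟩

/-- RB-B3. Pairwise non isomorphic irreducible subspaces are independent. -/
theorem irr_indep [FiniteDimensional ℂ V] {ι : Type*} [Finite ι] (ρ : Γ →* (V →ₗ[ℂ] V)) (L : Subgroup Γ)
    (X : ι → Submodule ℂ V) (hX : ∀ i, IrrOn ρ L (X i)) (hne : ∀ i j, i ≠ j → ¬ IsoOn ρ L (X i) (X j)) :
    iSupIndep X := by
  classical
  have := Fintype.ofFinite ι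
  intro i
  have hZ : Stb ρ L (⨆ j, ⨆ (_ : j ≠ i), X j) := stb_iSup_B3 fun j => stb_iSup_B3 fun _ => (hX j).2.1
  rcases (hX i).2.2 _ inf_le_left (stb_inf_B3 (hX i).2.1 hZ) with h | h
  · exact disjoint_iff.2 h
  · exfalso
    rw [inf_eq_left] at h
    have h1 : (⨆ j, ⨆ (_ : j ≠ i), X j) ≤ ⨆ j ∈ Finset.univ.erase i, X j := by
      refine iSup_le fun j => iSup_le fun hj => ?_
      exact le_iSup₂_of_le j (Finset.mem_erase.2 ⟨hj, Finset.mem_univ _⟩) le_rfl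
    obtain ⟨j, hj, hj'⟩ := exists_iso_B3 hX (hX i) _ (h.trans h1)
    exact hne i j (Finset.ne_of_mem_erase hj).symm hj'

/-- RB-B4. -/
theorem irr_mem [FiniteDimensional ℂ V] {ι : Type*} [Finite ι] (ρ : Γ →* (V →ₗ[ℂ] V)) (L : Subgroup Γ)
    (X : ι → Submodule ℂ V) (hX : ∀ i, IrrOn ρ L (X i)) (hne : ∀ i j, i ≠ j → ¬ IsoOn ρ L (X i) (X j))
    (hsup : ⨆ i, X i = ⊤) {Y : Submodule ℂ V} (hY : IrrOn ρ L Y) : ∃ i, Y = X i := by
  classical
  have := Fintype.ofFinite ι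
  have hind := irr_indep ρ L X hX hne
  have hex : ∃ s : Finset ι, Y ≤ ⨆ j ∈ s, X j := by
    refine ⟨Finset.univ, ?_⟩
    have h1 : (⨆ j ∈ (Finset.univ : Finset ι), X j) = ⊤ := by
      rw [← hsup]
      simp
    rw [h1]
    exact le_top
  obtain ⟨s, hs, hmin⟩ : ∃ s : Finset ι, Y ≤ (⨆ j ∈ s, X j) ∧
      ∀ t : Finset ι, Y ≤ (⨆ j ∈ t, X j) → s.card ≤ t.card := by
    obtain ⟨s, hs⟩ := hex
    have h1 : ∃ n, ∃ s : Finset ι, Y ≤ (⨆ j ∈ s, X j) ∧ s.card = n := ⟨_, s, hs, rfl⟩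
    obtain ⟨s', hs', hc⟩ := Nat.find_spec h1
    refine ⟨s', hs', fun t ht => ?_⟩
    rw [hc]
    exact Nat.find_min' h1 ⟨t, ht, rfl⟩
  have hiso : ∀ j ∈ s, IsoOn ρ L Y (X j) := by
    intro j hj
    have hZ : Stb ρ L (⨆ k ∈ s.erase j, X k) := stb_iSup_B3 fun k => stb_iSup_B3 fun _ => (hX k).2.1
    have h1 : (⨆ k ∈ s, X k) = (⨆ k ∈ s.erase j, X k) ⊔ X j := by
      conv_lhs => rw [← Finset.insert_erase hj]
      rw [Finset.iSup_insert, sup_comm]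
    have h2 : Y ⊓ (⨆ k ∈ s.erase j, X k) = ⊥ := by
      rcases hY.2.2 _ inf_le_left (stb_inf_B3 hY.2.1 hZ) with h | h
      · exact h
      · exfalso
        rw [inf_eq_left] at h
        have h3 := hmin _ h
        have h4 := Finset.card_erase_lt_of_mem hj
        omega
    have h3 : X j ⊓ (⨆ k ∈ s.erase j, X k) = ⊥ := by
      have h4 := disjoint_iff.1 (hind j)
      rw [← le_bot_iff, ← h4]
      refine inf_le_inf_left _ (iSup_le fun k => iSup_le fun hk => ?_)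
      exact le_iSup₂_of_le k (Finset.ne_of_mem_erase hk) le_rfl
    exact schur_B3 hY hZ (hX j) (h1 ▸ hs) h2 h3
  have hone : ∀ j ∈ s, ∀ k ∈ s, j = k := by
    intro j hj k hk
    by_contra hjk
    exact hne j k hjk (isoOn_trans_B3 (isoOn_symm_B3 hY.2.1 (hiso j hj)) (hiso k hk))
  have hsne : s.Nonempty := by
    rw [Finset.nonempty_iff_ne_empty]
    rintro rfl
    apply hY.1
    simpa using hs
  obtain ⟨j, hj⟩ := hsne
  have hs1 : s = {j} := Finset.eq_singleton_iff_unique_mem.2 ⟨hj, fun k hk => hone k hk j hj⟩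
  rw [hs1] at hs
  have h5 : Y ≤ X j := by simpa using hs
  refine ⟨j, ?_⟩
  rcases (hX j).2.2 Y h5 hY.2.1 with h | h
  · exact absurd h hY.1
  · exact h

end SB
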