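import Pool.Agent.Helper21.CC.Base

/-!
# Project RB: Brauer induction relative to the group generated by the complex conjugations, definitions
-/

namespace SB

universe u v

section
variable {Γ : Type u} [Group Γ] {V : Type v} [AddCommGroup V] [Module ℂ V]

/-- `X` is a nonzero subspace, stable under `N`, without stable subspaces other than zero and `X`. -/
def IrrOn (ρ : Γ →* (V →ₗ[ℂ] V)) (N : Subgroup Γ) (X : Submodule ℂ V) : Prop :=
  X ≠ ⊥ ∧ Stb ρ N X ∧ ∀ Y ≤ X, Stb ρ N Y → Y = ⊥ ∨ Y = X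

/-- The subspaces `X`, `Y` are isomorphic as representations of `N`. -/
def IsoOn (ρ : Γ →* (V →ₗ[ℂ] V)) (N : Subgroup Γ) (X Y : Submodule ℂ V) : Prop :=
  ∃ f : X ≃ₗ[ℂ] Y, ∀ n ∈ N, ∀ x x' : X, (x' : V) = ρ n x → ((f x' : Y) : V) = ρ n (f x)

/-- `N ≤ C` are normal, `C / N` is cyclic and `C` has index a power of `p`. -/
def CycP {G : Type u} [Group G] (p : ℕ) (N C : Subgroup G) : Prop :=
  N.Normal ∧ C.Normal ∧ N ≤ C ∧ (∃ z ∈ C, ∀ c ∈ C, ∃ k : ℕ, (z ^ k)⁻¹ * c ∈ N) ∧ (∃ a, C.index = p ^ a)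

end

end SB
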