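import Pool.Agent.Helper21.RB.Base

/-!
# Project RB, module C1: prime steps in cyclic-by-`p` groups
-/

namespace SB

universe u

namespace RBC1

/-- a prime step from an element of prime order generating a normal subgroup of the quotient -/
theorem step_of {G : Type u} [Group G] {L : Subgroup G} (hL : L.Normal) {q : ℕ} (hq : q.Prime) {t : G}
    (ho : orderOf (QuotientGroup.mk' L t) = q)
    (hn : ∀ g : G ⧸ L, g * QuotientGroup.mk' L t * g⁻¹ ∈ Subgroup.zpowers (QuotientGroup.mk' L t)) :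
    ∃ (K : Subgroup G) (q : ℕ) (t : G), K.Normal ∧ q.Prime ∧ IsStep q L K t := by
  have hN : (Subgroup.zpowers (QuotientGroup.mk' L t)).Normal := by
    refine ⟨fun x hx g => ?_⟩
    obtain ⟨i, rfl⟩ := Subgroup.mem_zpowers_iff.1 hx
    rw [← conj_zpow]
    exact Subgroup.zpow_mem _ (hn g) i
  refine ⟨(Subgroup.zpowers (QuotientGroup.mk' L t)).comap (QuotientGroup.mk' L), q, t,
    hN.comap _, hq, ?_, ?_, ?_, ?_, ?_⟩
  · intro x hx
    rw [Subgroup.mem_comap]
    have h1 : QuotientGroup.mk' L x = 1 := (QuotientGroup.eq_one_iff x).2 hx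
    rw [h1]
    exact Subgroup.one_mem _
  · rw [Subgroup.mem_comap]
    exact Subgroup.mem_zpowers _
  · intro u _ w hw
    exact hL.conj_mem w hw u
  · intro u hu
    rw [Subgroup.mem_comap] at hu
    obtain ⟨i, hi⟩ := Subgroup.mem_zpowers_iff.1 hu
    have hq0 : (q : ℤ) ≠ 0 := by exact_mod_cast hq.ne_zero
    refine ⟨(i % q).toNat, ?_, ?_⟩
    · have h1 := Int.emod_lt_of_pos i (b := (q : ℤ)) (by exact_mod_cast hq.pos)
      have h2 := Int.emod_nonneg i hq0
      omega
    · rw [← QuotientGroup.eq_one_iff]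
      have h2 := Int.emod_nonneg i hq0
      have h3 : (QuotientGroup.mk' L t) ^ (i % q).toNat = (QuotientGroup.mk' L t) ^ i := by
        rw [← zpow_natCast, Int.toNat_of_nonneg h2, ← ho, zpow_mod_orderOf]
      show QuotientGroup.mk' L ((t ^ (i % q).toNat)⁻¹ * u) = 1
      rw [map_mul, map_inv, map_pow, h3, hi, inv_mul_cancel]
  · intro k hk h
    have h1 : (QuotientGroup.mk' L t) ^ k = 1 := by
      rw [← map_pow]
      exact (QuotientGroup.eq_one_iff _).2 h
    have h2 := orderOf_dvd_of_pow_eq_one h1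
    rw [ho] at h2
    exact Nat.eq_zero_of_dvd_of_lt h2 hk

end RBC1

/-- RB-C1. -/
theorem exists_prime_step {G : Type u} [Group G] {p : ℕ} (hp : p.Prime) {N C : Subgroup G} (h : CycP p N C)
    (hf : N.FiniteIndex) {L : Subgroup G} (hL : L.Normal) (hNL : N ≤ L) (hne : L ≠ ⊤) :
    ∃ (K : Subgroup G) (q : ℕ) (t : G), K.Normal ∧ q.Prime ∧ IsStep q L K t := by
  obtain ⟨hN, hC, hNC, ⟨z, hz, hgen⟩, a, ha⟩ := h
  have hLf : L.FiniteIndex := Subgroup.finiteIndex_of_le hNL
  have hfin : Finite (G ⧸ L) := inferInstance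
  by_cases hCL : C ≤ L
  · have h1 : L.index ∣ p ^ a := by
      rw [← ha]
      exact Subgroup.index_dvd_of_le hCL
    obtain ⟨b, _, hb⟩ := (Nat.dvd_prime_pow hp).1 h1
    have hP : IsPGroup p (G ⧸ L) := IsPGroup.of_card (n := b) hb
    have hfact : Fact p.Prime := ⟨hp⟩
    have hnt : Nontrivial (G ⧸ L) := by
      rw [QuotientGroup.nontrivial_iff]
      exact hne
    have hcn : Nontrivial (Subgroup.center (G ⧸ L)) := hP.center_nontrivial
    obtain ⟨⟨x, hx⟩, hx1⟩ := exists_ne (1 : Subgroup.center (G ⧸ L))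
    have hx1' : x ≠ 1 := fun e => hx1 (Subtype.ext e)
    have hox : orderOf x ≠ 0 := (orderOf_pos x).ne'
    have hpx : p ∣ orderOf x := by
      obtain ⟨k, hk⟩ := hP x
      have h2 := orderOf_dvd_of_pow_eq_one hk
      obtain ⟨j, _, hj⟩ := (Nat.dvd_prime_pow hp).1 h2
      rcases Nat.eq_zero_or_pos j with h0 | h0
      · rw [h0, pow_zero, orderOf_eq_one_iff] at hj
        exact absurd hj hx1'
      · rw [hj]
        exact dvd_pow_self p h0.ne'
    have hoy := orderOf_pow_orderOf_div hox hpx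
    obtain ⟨t, ht⟩ := QuotientGroup.mk'_surjective L (x ^ (orderOf x / p))
    apply RBC1.step_of hL hp (t := t)
    · rw [ht]
      exact hoy
    · intro g
      have hc : x ^ (orderOf x / p) ∈ Subgroup.center (G ⧸ L) := Subgroup.pow_mem _ hx _
      rw [ht, Subgroup.mem_center_iff.1 hc g, mul_assoc, mul_inv_cancel, mul_one]
      exact Subgroup.mem_zpowers _
  · have hzL : z ∉ L := by
      intro h1
      apply hCL
      intro c hc
      obtain ⟨k, hk⟩ := hgen c hc
      have h2 : z ^ k * ((z ^ k)⁻¹ * c) ∈ L := L.mul_mem (L.pow_mem h1 k) (hNL hk)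
      rwa [mul_inv_cancel_left] at h2
    have hx1 : QuotientGroup.mk' L z ≠ 1 := by
      intro h1
      exact hzL ((QuotientGroup.eq_one_iff z).1 h1)
    have hox : orderOf (QuotientGroup.mk' L z) ≠ 0 := (orderOf_pos _).ne'
    have hox1 : orderOf (QuotientGroup.mk' L z) ≠ 1 := by
      rw [Ne, orderOf_eq_one_iff]
      exact hx1
    have hq := Nat.minFac_prime hox1
    have hoy := orderOf_pow_orderOf_div hox (Nat.minFac_dvd _)
    apply RBC1.step_of hL hq (t := z ^ (orderOf (QuotientGroup.mk' L z) /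
      (orderOf (QuotientGroup.mk' L z)).minFac))
    · rw [map_pow]
      exact hoy
    · intro g
      obtain ⟨g, rfl⟩ := QuotientGroup.mk'_surjective L g
      obtain ⟨k, hk⟩ := hgen (g * z * g⁻¹) (hC.conj_mem z hz g)
      have h1 : QuotientGroup.mk' L ((z ^ k)⁻¹ * (g * z * g⁻¹)) = 1 :=
        (QuotientGroup.eq_one_iff _).2 (hNL hk)
      rw [map_mul, map_inv, inv_mul_eq_one, map_mul, map_mul, map_inv, map_pow] at h1
      rw [map_pow, ← conj_pow, ← h1, ← pow_mul, mul_comm, pow_mul]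
      exact Subgroup.pow_mem _ (Subgroup.mem_zpowers _) k

end SB
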