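import Pool.Agent.Helper21.RB.Base

/-!
# Project RB, module C2
-/

namespace SB

universe u

/-- RB-C2. -/
theorem CycP.sub {G : Type u} [Group G] {p : ℕ} (hp : p.Prime) {N C : Subgroup G} (h : CycP p N C)
    (hf : N.FiniteIndex) (T : Subgroup G) (hT : N ≤ T) : CycP p (N.subgroupOf T) (C.subgroupOf T) := by
  classical
  obtain ⟨hN, hC, hNC, ⟨z, hz, hgen⟩, a, ha⟩ := h
  refine ⟨inferInstance, inferInstance, ?_, ?_, ?_⟩
  · intro x hx
    rw [Subgroup.mem_subgroupOf] at hx ⊢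
    exact hNC hx
  · have hex : ∃ m : ℕ, 0 < m ∧ z ^ m ∈ T := by
      obtain ⟨m, hm, -, hm2⟩ := Subgroup.exists_pow_mem_of_index_ne_zero hf.index_ne_zero z
      exact ⟨m, hm, hT hm2⟩
    obtain ⟨hm, hmT⟩ := Nat.find_spec hex
    have hmin : ∀ i, 0 < i → i < Nat.find hex → z ^ i ∉ T := fun i hi hi2 h3 =>
      Nat.find_min hex hi2 ⟨hi, h3⟩
    generalize Nat.find hex = m at *
    refine ⟨⟨z ^ m, hmT⟩, ?_, ?_⟩
    · rw [Subgroup.mem_subgroupOf]
      exact C.pow_mem hz m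
    · intro c hc
      rw [Subgroup.mem_subgroupOf] at hc
      obtain ⟨k, hk⟩ := hgen c hc
      have hzk : z ^ k ∈ T := by
        have h1 : z ^ k = (c : G) * ((z ^ k)⁻¹ * (c : G))⁻¹ := by group
        rw [h1]
        exact T.mul_mem c.2 (T.inv_mem (hT hk))
      have hr : z ^ (k % m) ∈ T := by
        have h1 : z ^ (k % m) = ((z ^ m) ^ (k / m))⁻¹ * z ^ k := by
          rw [← pow_mul, eq_inv_mul_iff_mul_eq, ← pow_add, Nat.div_add_mod]
        rw [h1]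
        exact T.mul_mem (T.inv_mem (T.pow_mem hmT _)) hzk
      have h0 : k % m = 0 := by
        by_contra hne
        exact hmin (k % m) (Nat.pos_of_ne_zero hne) (Nat.mod_lt k hm) hr
      refine ⟨k / m, ?_⟩
      rw [Subgroup.mem_subgroupOf]
      have h2 : (z ^ m) ^ (k / m) = z ^ k := by
        rw [← pow_mul, Nat.mul_div_cancel' (Nat.dvd_of_mod_eq_zero h0)]
      show ((z ^ m) ^ (k / m))⁻¹ * (c : G) ∈ N
      rw [h2]
      exact hk
  · have hd : (C.subgroupOf T).index ∣ p ^ a := by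
      rw [← ha]
      exact Subgroup.relIndex_dvd_index_of_normal C T
    obtain ⟨b, -, hb⟩ := (Nat.dvd_prime_pow hp).1 hd
    exact ⟨b, hb⟩

/-- RB-C3. -/
theorem cycP_of_abExt {Γ : Type u} [Group Γ] {p : ℕ} {N C U : Subgroup Γ} (hN : N.Normal) (h : AbExt p N C U)
    (hz : ∃ z ∈ C, ∀ c ∈ C, ∃ k : ℕ, (z ^ k)⁻¹ * c ∈ N) : CycP p (N.subgroupOf U) (C.subgroupOf U) := by
  obtain ⟨z, hzC, hz⟩ := hz
  obtain ⟨a, ha⟩ := h.idx
  refine ⟨inferInstance, ⟨?_⟩, ?_, ⟨⟨z, h.cu hzC⟩, ?_, ?_⟩, a, ha⟩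
  · intro c hc u
    rw [Subgroup.mem_subgroupOf] at hc ⊢
    exact h.norm u u.2 c hc
  · intro x hx
    rw [Subgroup.mem_subgroupOf] at hx ⊢
    exact h.mc hx
  · rw [Subgroup.mem_subgroupOf]
    exact hzC
  · intro c hc
    rw [Subgroup.mem_subgroupOf] at hc
    obtain ⟨k, hk⟩ := hz c hc
    refine ⟨k, ?_⟩
    rw [Subgroup.mem_subgroupOf]
    exact hk

end SB
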