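import Pool.Agent.Helper21.RB.Base

/-!
# Project RB, module D: restrictions of representations, traces, transitivity of induction
-/

namespace SB

universe u v

variable {Γ : Type u} [Group Γ] {V : Type v} [AddCommGroup V] [Module ℂ V]

theorem resRep_apply_D (ρ : Γ →* (V →ₗ[ℂ] V)) {T : Subgroup Γ} {Y : Submodule ℂ V} (h : Stb ρ T Y) (t : T)
    (y : Y) : ((resRep ρ T Y h t y : Y) : V) = ρ t y := rfl

theorem mem_map_sub_D {T : Subgroup Γ} (W : Subgroup T) (x : T) :
    (x : Γ) ∈ W.map T.subtype ↔ x ∈ W := by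
  rw [Subgroup.mem_map]
  constructor
  · rintro ⟨y, hy, hyx⟩
    have : y = x := Subtype.ext hyx
    rwa [← this]
  · intro h
    exact ⟨x, h, rfl⟩

theorem mem_map_submodule_D {Y : Submodule ℂ V} (X : Submodule ℂ Y) (x : Y) :
    (x : V) ∈ X.map Y.subtype ↔ x ∈ X := by
  rw [Submodule.mem_map]
  constructor
  · rintro ⟨y, hy, hyx⟩
    have : y = x := Subtype.ext hyx
    rwa [← this]
  · intro h
    exact ⟨x, h, rfl⟩

/-- RB-D1. -/
theorem stb_res (ρ : Γ →* (V →ₗ[ℂ] V)) {T : Subgroup Γ} {Y : Submodule ℂ V} (h : Stb ρ T Y) (W : Subgroup T)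
    (X : Submodule ℂ Y) : Stb (resRep ρ T Y h) W X ↔ Stb ρ (W.map T.subtype) (X.map Y.subtype) := by
  constructor
  · rintro H _ ⟨w, hw, rfl⟩ _ ⟨x, hx, rfl⟩
    exact ⟨resRep ρ T Y h w x, H w hw x hx, rfl⟩
  · intro H w hw x hx
    have h1 : ρ (w : Γ) (x : V) ∈ X.map Y.subtype :=
      H w ((mem_map_sub_D W w).2 hw) x ((mem_map_submodule_D X x).2 hx)
    rw [← resRep_apply_D ρ h] at h1
    exact (mem_map_submodule_D X _).1 h1

/-- RB-D2. -/
theorem irr_res (ρ : Γ →* (V →ₗ[ℂ] V)) {T N : Subgroup Γ} {Y : Submodule ℂ V} (h : Stb ρ T Y) (hN : N ≤ T)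
    (X : Submodule ℂ Y) : IrrOn (resRep ρ T Y h) (N.subgroupOf T) X ↔ IrrOn ρ N (X.map Y.subtype) := by
  have hinj : Function.Injective Y.subtype := Subtype.val_injective
  have hst : ∀ Z : Submodule ℂ Y, Stb (resRep ρ T Y h) (N.subgroupOf T) Z ↔
      Stb ρ N (Z.map Y.subtype) := by
    intro Z
    rw [stb_res ρ h, Subgroup.map_subgroupOf_eq_of_le hN]
  have hbot : ∀ Z : Submodule ℂ Y, Z = ⊥ ↔ Z.map Y.subtype = ⊥ := by
    intro Z
    constructor
    · intro e
      rw [e, Submodule.map_bot]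
    · intro e
      refine Submodule.map_injective_of_injective hinj ?_
      show Submodule.map Y.subtype Z = Submodule.map Y.subtype ⊥
      rw [e, Submodule.map_bot]
  have heq : ∀ Z : Submodule ℂ Y, Z = X ↔ Z.map Y.subtype = X.map Y.subtype := by
    intro Z
    exact ⟨fun e => by rw [e], fun e => Submodule.map_injective_of_injective hinj e⟩
  constructor
  · rintro ⟨h1, h2, h3⟩
    refine ⟨fun e => h1 ((hbot X).2 e), (hst X).1 h2, fun Z hZ hs => ?_⟩
    have hZY : Z ≤ Y := hZ.trans (Submodule.map_subtype_le Y X)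
    have e : (Z.comap Y.subtype).map Y.subtype = Z := by
      rw [Submodule.map_comap_subtype, inf_eq_right.2 hZY]
    have h4 := h3 (Z.comap Y.subtype) (fun z hz => (mem_map_submodule_D X z).1 (hZ hz))
      ((hst _).2 (by rw [e]; exact hs))
    rw [hbot, heq, e] at h4
    exact h4
  · rintro ⟨h1, h2, h3⟩
    refine ⟨fun e => h1 ((hbot X).1 e), (hst X).2 h2, fun Z hZ hs => ?_⟩
    have h4 := h3 (Z.map Y.subtype) (Submodule.map_mono hZ) ((hst Z).1 hs)
    rwa [hbot, heq]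

/-- RB-D3. -/
theorem trx_res [FiniteDimensional ℂ V] (ρ : Γ →* (V →ₗ[ℂ] V)) {T : Subgroup Γ} {Y : Submodule ℂ V}
    (h : Stb ρ T Y) (W : Subgroup T) (X : Submodule ℂ Y) (u : T) :
    trx (resRep ρ T Y h) W X u = trx ρ (W.map T.subtype) (X.map Y.subtype) u := by
  have key : (∀ v ∈ X, resRep ρ T Y h u v ∈ X) ↔
      ∀ v ∈ X.map Y.subtype, ρ (u : Γ) v ∈ X.map Y.subtype := by
    constructor
    · rintro H _ ⟨x, hx, rfl⟩
      exact ⟨resRep ρ T Y h u x, H x hx, rfl⟩
    · intro H x hx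
      have h1 := H x ((mem_map_submodule_D X x).2 hx)
      rw [← resRep_apply_D ρ h] at h1
      exact (mem_map_submodule_D X _).1 h1
  by_cases hc : u ∈ W ∧ ∀ v ∈ X, resRep ρ T Y h u v ∈ X
  · have hc' : (u : Γ) ∈ W.map T.subtype ∧ ∀ v ∈ X.map Y.subtype, ρ (u : Γ) v ∈ X.map Y.subtype :=
      ⟨(mem_map_sub_D W u).2 hc.1, key.1 hc.2⟩
    have e1 : trx (resRep ρ T Y h) W X u =
        LinearMap.trace ℂ X ((resRep ρ T Y h u).restrict hc.2) := by
      unfold trx
      rw [dif_pos hc]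
    have e2 : trx ρ (W.map T.subtype) (X.map Y.subtype) u =
        LinearMap.trace ℂ (X.map Y.subtype) ((ρ (u : Γ)).restrict hc'.2) := by
      unfold trx
      rw [dif_pos hc']
    rw [e1, e2]
    let e : X ≃ₗ[ℂ] (X.map Y.subtype) :=
      Submodule.equivMapOfInjective Y.subtype Subtype.val_injective X
    have he : ∀ x : X, ((e x : X.map Y.subtype) : V) = ((x : Y) : V) := fun x => rfl
    rw [← LinearMap.trace_conj' ((resRep ρ T Y h u).restrict hc.2) e]
    congr 1
    refine LinearMap.ext fun v => ?_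
    obtain ⟨x, rfl⟩ := e.surjective v
    have e3 : (e.conj ((resRep ρ T Y h u).restrict hc.2)) (e x) =
        e (((resRep ρ T Y h u).restrict hc.2) x) := by
      rw [LinearEquiv.conj_apply_apply, LinearEquiv.symm_apply_apply]
    rw [e3]
    rfl
  · have hc' : ¬ ((u : Γ) ∈ W.map T.subtype ∧
        ∀ v ∈ X.map Y.subtype, ρ (u : Γ) v ∈ X.map Y.subtype) :=
      fun H => hc ⟨(mem_map_sub_D W u).1 H.1, key.2 H.2⟩
    unfold trx
    rw [dif_neg hc, dif_neg hc']

/-- RB-D4. -/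
theorem cls_trx [FiniteDimensional ℂ V] (ρ : Γ →* (V →ₗ[ℂ] V)) {U : Subgroup Γ} {X : Submodule ℂ V}
    (h : Stb ρ U X) : Cls U (trx ρ U X) := by
  refine ⟨fun g hg => ?_, fun u hu g => ?_⟩
  · unfold trx
    rw [dif_neg fun H => hg H.1]
  · by_cases hg : g ∈ U
    · have hg' : u⁻¹ * g * u ∈ U := U.mul_mem (U.mul_mem (U.inv_mem hu) hg) hu
      have e1 : trx ρ U X g = LinearMap.trace ℂ X ((ρ g).restrict (h g hg)) := by
        unfold trx
        rw [dif_pos ⟨hg, h g hg⟩]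
      have e2 : trx ρ U X (u⁻¹ * g * u) =
          LinearMap.trace ℂ X ((ρ (u⁻¹ * g * u)).restrict (h _ hg')) := by
        unfold trx
        rw [dif_pos ⟨hg', h _ hg'⟩]
      rw [e1, e2]
      have r1 : ∀ v, ρ u⁻¹ (ρ u v) = v := fun v => by
        rw [← Module.End.mul_apply, ← map_mul, inv_mul_cancel, map_one, Module.End.one_apply]
      have r2 : ∀ v, ρ u (ρ u⁻¹ v) = v := fun v => by
        rw [← Module.End.mul_apply, ← map_mul, mul_inv_cancel, map_one, Module.End.one_apply]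
      let e : X ≃ₗ[ℂ] X := LinearEquiv.ofLinearMap ((ρ u).restrict (h u hu))
        ((ρ u⁻¹).restrict (h _ (U.inv_mem hu)))
        (LinearMap.ext fun v => Subtype.ext (r2 v)) (LinearMap.ext fun v => Subtype.ext (r1 v))
      rw [← LinearMap.trace_conj' ((ρ (u⁻¹ * g * u)).restrict (h _ hg')) e]
      congr 1
      refine LinearMap.ext fun v => Subtype.ext ?_
      show ρ u (ρ (u⁻¹ * g * u) (ρ u⁻¹ v)) = ρ g v
      rw [← Module.End.mul_apply, ← Module.End.mul_apply, ← map_mul, ← map_mul]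
      congr 2
      group
    · have hg' : ¬ (u⁻¹ * g * u ∈ U) := by
        intro H
        apply hg
        have h2 := U.mul_mem (U.mul_mem hu H) (U.inv_mem hu)
        have h3 : u * (u⁻¹ * g * u) * u⁻¹ = g := by group
        rwa [h3] at h2
      unfold trx
      rw [dif_neg fun H => hg' H.1, dif_neg fun H => hg H.1]

/-- RB-D5. -/
theorem ind_res [FiniteDimensional ℂ V] (ρ : Γ →* (V →ₗ[ℂ] V)) {T : Subgroup Γ} (hT : T.FiniteIndex)
    {Y : Submodule ℂ V} (h : Stb ρ T Y) {m : ℕ} (W : Fin m → Subgroup T) (hW : ∀ k, (W k).FiniteIndex)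
    (X : Fin m → Submodule ℂ Y) (hX : ∀ k, Stb (resRep ρ T Y h) (W k) (X k))
    (e : ∀ u : T, LinearMap.trace ℂ Y (resRep ρ T Y h u) = ∑ k, Ind (W k) (trx (resRep ρ T Y h) (W k) (X k)) u)
    (g : Γ) : Ind T (trx ρ T Y) g = ∑ k, Ind ((W k).map T.subtype) (trx ρ ((W k).map T.subtype) ((X k).map Y.subtype)) g := by
  classical
  have hfT : Finite (Γ ⧸ T) := T.finite_quotient_of_finiteIndex
  have hft1 : Fintype (Γ ⧸ T) := Fintype.ofFinite _
  have hcls : ∀ k, Cls ((W k).map T.subtype) (trx ρ ((W k).map T.subtype) ((X k).map Y.subtype)) :=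
    fun k => cls_trx ρ ((stb_res ρ h (W k) (X k)).1 (hX k))
  have hI : ∀ k, Ind ((W k).map T.subtype) (trx ρ ((W k).map T.subtype) ((X k).map Y.subtype)) g =
      ∑ q : Γ ⧸ T, (if h' : q.out⁻¹ * g * q.out ∈ T then
        Ind (W k) (trx (resRep ρ T Y h) (W k) (X k)) ⟨_, h'⟩ else 0) := by
    intro k
    rw [ind_trans_B4 hT (W k) (hW k) (hcls k) g, finsum_eq_sum_of_fintype]
    refine Finset.sum_congr rfl fun q _ => ?_
    congr 1
    funext h'
    congr 1
    funext u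
    exact (trx_res ρ h (W k) (X k) u).symm
  rw [Finset.sum_congr rfl fun k _ => hI k, Finset.sum_comm]
  unfold Ind
  rw [finsum_eq_sum_of_fintype]
  refine Finset.sum_congr rfl fun q _ => ?_
  by_cases h' : q.out⁻¹ * g * q.out ∈ T
  · have e1 : trx ρ T Y (q.out⁻¹ * g * q.out) =
        LinearMap.trace ℂ Y (resRep ρ T Y h ⟨_, h'⟩) := by
      unfold trx
      rw [dif_pos ⟨h', h _ h'⟩]
      rfl
    rw [e1, e]
    refine Finset.sum_congr rfl fun k _ => ?_
    rw [dif_pos h']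
    rfl
  · have e1 : trx ρ T Y (q.out⁻¹ * g * q.out) = 0 := by
      unfold trx
      rw [dif_neg fun H => h' H.1]
    rw [e1]
    symm
    refine Finset.sum_eq_zero fun k _ => ?_
    rw [dif_neg h']

end SB
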