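import Pool.Agent.Helper21.RB.Base

/-!
# Project RB, module E1: the number of equivariant maps
-/

namespace SB

universe u v

/-- RB-E1. The number of equivariant maps between two representations of a finite group. -/
theorem sum_hom {Q : Type u} [Group Q] [Finite Q] {X : Type v} [AddCommGroup X] [Module ℂ X]
    [FiniteDimensional ℂ X] {V : Type v} [AddCommGroup V] [Module ℂ V] [FiniteDimensional ℂ V]
    (α : Q →* (X →ₗ[ℂ] X)) (β : Q →* (V →ₗ[ℂ] V)) :
    ∃ H : Submodule ℂ (X →ₗ[ℂ] V), (∀ f, f ∈ H ↔ ∀ q, f ∘ₗ α q = β q ∘ₗ f) ∧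
      ∑ᶠ q : Q, LinearMap.trace ℂ X (α q⁻¹) * LinearMap.trace ℂ V (β q) =
        (Nat.card Q : ℂ) * (Module.finrank ℂ H : ℂ) := by
  classical
  haveI : Fintype Q := Fintype.ofFinite Q
  let ρ : Representation ℂ Q X := α
  let σ : Representation ℂ Q V := β
  have hne : (Nat.card Q : ℂ) ≠ 0 := by
    rw [Nat.cast_ne_zero]
    exact Nat.card_pos.ne'
  haveI : Invertible (Nat.card Q : ℂ) := invertibleOfNonzero hne
  refine ⟨(Representation.linHom ρ σ).invariants, ?_, ?_⟩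
  · intro f
    rw [Representation.mem_invariants]
    constructor
    · intro h q
      have h1 : β q ∘ₗ f ∘ₗ α q⁻¹ = f := h q
      have h2 : α q⁻¹ ∘ₗ α q = LinearMap.id := by
        rw [← Module.End.mul_eq_comp, ← map_mul, inv_mul_cancel, map_one]
        rfl
      calc f ∘ₗ α q = (β q ∘ₗ f ∘ₗ α q⁻¹) ∘ₗ α q := by rw [h1]
        _ = β q ∘ₗ f ∘ₗ (α q⁻¹ ∘ₗ α q) := rfl
        _ = β q ∘ₗ f := by rw [h2, LinearMap.comp_id]
    · intro h q
      have h2 : α q ∘ₗ α q⁻¹ = LinearMap.id := by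
        rw [← Module.End.mul_eq_comp, ← map_mul, mul_inv_cancel, map_one]
        rfl
      change β q ∘ₗ f ∘ₗ α q⁻¹ = f
      calc β q ∘ₗ f ∘ₗ α q⁻¹ = (β q ∘ₗ f) ∘ₗ α q⁻¹ := rfl
        _ = (f ∘ₗ α q) ∘ₗ α q⁻¹ := by rw [h q]
        _ = f ∘ₗ (α q ∘ₗ α q⁻¹) := rfl
        _ = f := by rw [h2, LinearMap.comp_id]
  · rw [finsum_eq_sum_of_fintype]
    have h1 := (Representation.linHom ρ σ).card_inv_mul_sum_char_eq_finrank
    rw [← h1, ← mul_assoc, mul_inv_cancel₀ hne, one_mul]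
    refine Finset.sum_congr rfl fun q _ => ?_
    rw [Representation.char_linHom]
    rfl

end SB
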