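import Pool.Agent.Helper21.RB.Base

/-!
# Project RB, module E2: an irreducible subspace occurs in a term of every integral combination of
induced characters
-/

namespace SB

universe u v w

/-- The number of equivariant maps between two representations of a finite group (as RB-E1, with
independent universes). -/
theorem sum_hom_E2 {Q : Type u} [Group Q] [Finite Q] {X : Type v} [AddCommGroup X] [Module ℂ X]
    [FiniteDimensional ℂ X] {V : Type w} [AddCommGroup V] [Module ℂ V] [FiniteDimensional ℂ V]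
    (α : Q →* (X →ₗ[ℂ] X)) (β : Q →* (V →ₗ[ℂ] V)) :
    ∃ H : Submodule ℂ (X →ₗ[ℂ] V), (∀ f, f ∈ H ↔ ∀ q, f ∘ₗ α q = β q ∘ₗ f) ∧
      ∑ᶠ q : Q, LinearMap.trace ℂ X (α q⁻¹) * LinearMap.trace ℂ V (β q) =
        (Nat.card Q : ℂ) * (Module.finrank ℂ H : ℂ) := by
  classical
  have : Fintype Q := Fintype.ofFinite Q
  let ρ : Representation ℂ Q X := α
  let σ : Representation ℂ Q V := β
  have hne : (Nat.card Q : ℂ) ≠ 0 := by
    rw [Nat.cast_ne_zero]
    exact Nat.card_pos.ne'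
  have : Invertible (Nat.card Q : ℂ) := invertibleOfNonzero hne
  refine ⟨(Representation.linHom ρ σ).invariants, ?_, ?_⟩
  · intro f
    rw [Representation.mem_invariants]
    constructor
    · intro h q
      have h1 : β q ∘ₗ f ∘ₗ α q⁻¹ = f := h q
      have h2 : α q⁻¹ ∘ₗ α q = LinearMap.id := by
        rw [← Module.End.mul_eq_comp, ← map_mul, inv_mul_cancel, map_one]
        rfl
      calc f ∘ₗ α q = (β q ∘ₗ f ∘ₗ α q⁻¹) ∘ₗ α q := by rw [h1]
        _ = β q ∘ₗ f ∘ₗ (α q⁻¹ ∘ₗ α q) := rfl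
        _ = β q ∘ₗ f := by rw [h2, LinearMap.comp_id]
    · intro h q
      have h2 : α q ∘ₗ α q⁻¹ = LinearMap.id := by
        rw [← Module.End.mul_eq_comp, ← map_mul, mul_inv_cancel, map_one]
        rfl
      change β q ∘ₗ f ∘ₗ α q⁻¹ = f
      calc β q ∘ₗ f ∘ₗ α q⁻¹ = (β q ∘ₗ f) ∘ₗ α q⁻¹ := rfl
        _ = (f ∘ₗ α q) ∘ₗ α q⁻¹ := by rw [h q]
        _ = f ∘ₗ (α q ∘ₗ α q⁻¹) := rfl
        _ = f := by rw [h2, LinearMap.comp_id]
  · rw [finsum_eq_sum_of_fintype]
    have h1 := (Representation.linHom ρ σ).card_inv_mul_sum_char_eq_finrank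
    rw [← h1, ← mul_assoc, mul_inv_cancel₀ hne, one_mul]
    refine Finset.sum_congr rfl fun q _ => ?_
    rw [Representation.char_linHom]
    rfl

variable {Γ : Type u} [Group Γ] {V : Type v} [AddCommGroup V] [Module ℂ V]

/-- The representation `n ↦ ψ (y⁻¹ n y)` of `N`. -/
noncomputable def twE2 {N U : Subgroup Γ} (hN : N.Normal) (hU : N ≤ U) {W : Type w} [AddCommGroup W]
    [Module ℂ W] (ψ : U →* (W →ₗ[ℂ] W)) (y : Γ) : N →* (W →ₗ[ℂ] W) where
  toFun n := ψ ⟨y⁻¹ * n * y, hU (by have := hN.conj_mem n n.2 y⁻¹; rwa [inv_inv] at this)⟩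
  map_one' := by
    rw [← map_one ψ]
    congr 1
    apply Subtype.ext
    simp
  map_mul' a b := by
    rw [← map_mul]
    congr 1
    apply Subtype.ext
    simp [mul_assoc]

/-- A nonzero equivariant map from an irreducible subspace. -/
theorem occ_of_map_E2 [FiniteDimensional ℂ V] (ρ : Γ →* (V →ₗ[ℂ] V)) {N : Subgroup Γ} (hN : N.Normal)
    {X : Submodule ℂ V} (hX : IrrOn ρ N X) {U : Subgroup Γ} (hU : N ≤ U) {W : Type w} [AddCommGroup W]
    [Module ℂ W] [FiniteDimensional ℂ W] (ψ : U →* (W →ₗ[ℂ] W)) (y : Γ) (f : X →ₗ[ℂ] W) (hf0 : f ≠ 0)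
    (hf : ∀ n : N, f ∘ₗ resRep ρ N X hX.2.1 n = twE2 hN hU ψ y n ∘ₗ f) :
    ∃ Z : Submodule ℂ W, IrrOn ψ (N.subgroupOf U) Z ∧
      Module.finrank ℂ X = Module.finrank ℂ Z ∧
      ∀ g ∈ N, ∀ h : y⁻¹ * g * y ∈ U, trx ρ N X g = trx ψ (N.subgroupOf U) Z ⟨y⁻¹ * g * y, h⟩ := by
  obtain ⟨hX0, hXs, hXi⟩ := hX
  -- equivariance, elementwise
  have hfe : ∀ (n : Γ) (hn : n ∈ N) (x : X) (h : y⁻¹ * n * y ∈ U),
      f ⟨ρ n x, hXs n hn x x.2⟩ = ψ ⟨y⁻¹ * n * y, h⟩ (f x) := by
    intro n hn x h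
    have := LinearMap.congr_fun (hf ⟨n, hn⟩) x
    exact this
  have hconj : ∀ (u : U), (u : Γ) ∈ N → y * u * y⁻¹ ∈ N := fun u hu => hN.conj_mem _ hu y
  have hfe' : ∀ (u : U) (hu : (u : Γ) ∈ N) (x : X),
      f ⟨ρ (y * u * y⁻¹) x, hXs _ (hconj u hu) x x.2⟩ = ψ u (f x) := by
    intro u hu x
    have e : y⁻¹ * (y * u * y⁻¹) * y = u := by group
    have h : y⁻¹ * (y * u * y⁻¹) * y ∈ U := by rw [e]; exact u.2
    rw [hfe _ (hconj u hu) x h]
    congr 2
    exact Subtype.ext e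
  have hyN : ∀ n ∈ N, y⁻¹ * n * y ∈ N := fun n hn => by
    have := hN.conj_mem n hn y⁻¹
    rwa [inv_inv] at this
  have hinj : Function.Injective f := by
    rw [← LinearMap.ker_eq_bot]
    have hle : (LinearMap.ker f).map X.subtype ≤ X := Submodule.map_subtype_le _ _
    have hst : Stb ρ N ((LinearMap.ker f).map X.subtype) := by
      rintro n hn _ ⟨x, hx, rfl⟩
      refine ⟨⟨ρ n x, hXs n hn x x.2⟩, ?_, rfl⟩
      have hx' : f x = 0 := hx
      have h := hfe n hn x (hU (hyN n hn))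
      rw [hx', map_zero] at h
      exact h
    rcases hXi _ hle hst with h | h
    · exact Submodule.map_injective_of_injective (f := X.subtype) Subtype.val_injective
        (by
          show Submodule.map X.subtype (LinearMap.ker f) = Submodule.map X.subtype ⊥
          rw [h, Submodule.map_bot])
    · exfalso
      apply hf0
      ext x
      have hx : (x : V) ∈ (LinearMap.ker f).map X.subtype := by rw [h]; exact x.2
      obtain ⟨x', hx', e⟩ := hx
      have e' : x' = x := Subtype.ext e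
      rw [← e']
      have : f x' = 0 := hx'
      rw [this]
      rfl
  refine ⟨LinearMap.range f, ⟨?_, ?_, ?_⟩, ?_, ?_⟩
  · intro h
    rw [LinearMap.range_eq_bot] at h
    exact hf0 h
  · rintro u hu _ ⟨x, rfl⟩
    have hu' : (u : Γ) ∈ N := hu
    exact ⟨_, hfe' u hu' x⟩
  · intro Y hY hYs
    have hst : Stb ρ N ((Y.comap f).map X.subtype) := by
      rintro n hn _ ⟨x, hx, rfl⟩
      have hx' : f x ∈ Y := hx
      refine ⟨⟨ρ n x, hXs n hn x x.2⟩, ?_, rfl⟩
      show f ⟨ρ n x, _⟩ ∈ Y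
      rw [hfe n hn x (hU (hyN n hn))]
      exact hYs ⟨y⁻¹ * n * y, hU (hyN n hn)⟩ (hyN n hn) _ hx'
    rcases hXi _ (Submodule.map_subtype_le _ _) hst with h | h
    · left
      rw [eq_bot_iff]
      intro z hz
      obtain ⟨x, rfl⟩ := hY hz
      have hx : (x : V) ∈ (Y.comap f).map X.subtype := ⟨x, hz, rfl⟩
      rw [h, Submodule.mem_bot] at hx
      have : x = 0 := Subtype.ext hx
      rw [this, map_zero]
      exact Submodule.zero_mem _
    · right
      refine le_antisymm hY ?_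
      rintro _ ⟨x, rfl⟩
      have hx : (x : V) ∈ (Y.comap f).map X.subtype := by rw [h]; exact x.2
      obtain ⟨x', hx', e⟩ := hx
      have e' : x' = x := Subtype.ext e
      rw [← e']
      exact hx'
  · exact (LinearEquiv.ofInjective f hinj).finrank_eq
  · intro g hg h
    have hgN : y⁻¹ * g * y ∈ N := hyN g hg
    have hs : ∀ v ∈ LinearMap.range f, ψ ⟨y⁻¹ * g * y, h⟩ v ∈ LinearMap.range f := by
      rintro _ ⟨x, rfl⟩
      exact ⟨_, hfe g hg x h⟩
    have e1 : trx ρ N X g = LinearMap.trace ℂ X ((ρ g).restrict (hXs g hg)) := by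
      unfold trx
      rw [dif_pos ⟨hg, hXs g hg⟩]
    have e2 : trx ψ (N.subgroupOf U) (LinearMap.range f) ⟨y⁻¹ * g * y, h⟩ =
        LinearMap.trace ℂ (LinearMap.range f) ((ψ ⟨y⁻¹ * g * y, h⟩).restrict hs) := by
      unfold trx
      rw [dif_pos ⟨hgN, hs⟩]
    rw [e1, e2]
    let e : X ≃ₗ[ℂ] LinearMap.range f := LinearEquiv.ofInjective f hinj
    rw [← LinearMap.trace_conj' ((ρ g).restrict (hXs g hg)) e]
    congr 1
    refine LinearMap.ext fun v => ?_
    obtain ⟨x, rfl⟩ := e.surjective v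
    have e3 : (e.conj ((ρ g).restrict (hXs g hg))) (e x) = e (((ρ g).restrict (hXs g hg)) x) := by
      rw [LinearEquiv.conj_apply_apply, LinearEquiv.symm_apply_apply]
    rw [e3]
    apply Subtype.ext
    exact hfe g hg x h

/-- RB-E2. An irreducible subspace occurs in a term of every integral combination of induced characters. -/
theorem occurs [FiniteDimensional ℂ V] (ρ : Γ →* (V →ₗ[ℂ] V)) {M N : Subgroup Γ} (hM : M.Normal)
    (hf : M.FiniteIndex) (hMN : M ≤ N) (hN : N.Normal) (hρ : ∀ g ∈ M, ρ g = 1)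
    {X : Submodule ℂ V} (hX : IrrOn ρ N X) {m : ℕ} (n : Fin m → ℤ) (U : Fin m → Subgroup Γ)
    (hU : ∀ i, N ≤ U i) (e : Fin m → ℕ) (ψ : ∀ i, U i →* ((Fin (e i) → ℂ) →ₗ[ℂ] (Fin (e i) → ℂ)))
    (hψ : ∀ i (u : U i), (u : Γ) ∈ M → ψ i u = 1)
    (hv : ∀ g ∈ N, LinearMap.trace ℂ V (ρ g) =
      ∑ i, (n i : ℂ) * Ind (U i) (exz (U i) fun u => LinearMap.trace ℂ _ (ψ i u)) g) :
    ∃ (i : Fin m) (x : Γ) (Z : Submodule ℂ (Fin (e i) → ℂ)), IrrOn (ψ i) (N.subgroupOf (U i)) Z ∧
      Module.finrank ℂ X = Module.finrank ℂ Z ∧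
      ∀ g ∈ N, ∀ h : x⁻¹ * g * x ∈ U i, trx ρ N X g = trx (ψ i) (N.subgroupOf (U i)) Z ⟨x⁻¹ * g * x, h⟩ := by
  classical
  have := hM
  have := hf
  have : (M.subgroupOf N).Normal := hM.subgroupOf N
  have : Finite (N ⧸ M.subgroupOf N) := Subgroup.finite_quotient_of_finiteIndex
  have : Fintype (N ⧸ M.subgroupOf N) := Fintype.ofFinite _
  have hUf : ∀ i, (U i).FiniteIndex := fun i => Subgroup.finiteIndex_of_le (hMN.trans (hU i))
  have : ∀ i, Finite (Γ ⧸ U i) := fun i => by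
    have := hUf i
    exact Subgroup.finite_quotient_of_finiteIndex
  have : ∀ i, Fintype (Γ ⧸ U i) := fun i => Fintype.ofFinite _
  -- the representations of the finite quotient
  let α : (N ⧸ M.subgroupOf N) →* (X →ₗ[ℂ] X) := QuotientGroup.lift (M.subgroupOf N) (resRep ρ N X hX.2.1)
    (by
      intro a ha
      have ha' : (a : Γ) ∈ M := ha
      ext x
      show ρ a x = x
      rw [hρ _ ha']
      rfl)
  let β : (N ⧸ M.subgroupOf N) →* (V →ₗ[ℂ] V) := QuotientGroup.lift (M.subgroupOf N) (ρ.comp N.subtype)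
    (by
      intro a ha
      have ha' : (a : Γ) ∈ M := ha
      exact hρ _ ha')
  let γ : ∀ (i : Fin m) (y : Γ), (N ⧸ M.subgroupOf N) →* ((Fin (e i) → ℂ) →ₗ[ℂ] (Fin (e i) → ℂ)) :=
    fun i y => QuotientGroup.lift (M.subgroupOf N) (twE2 hN (hU i) (ψ i) y)
    (by
      intro a ha
      have ha' : (a : Γ) ∈ M := ha
      have : y⁻¹ * (a : Γ) * y ∈ M := by
        have := hM.conj_mem _ ha' y⁻¹
        rwa [inv_inv] at this
      exact hψ i ⟨y⁻¹ * a * y, hU i (hMN this)⟩ this)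
  by_contra hcon
  -- no equivariant maps to the terms
  have hzero : ∀ (i : Fin m) (y : Γ),
      ∑ q : N ⧸ M.subgroupOf N, LinearMap.trace ℂ X (α q⁻¹) * LinearMap.trace ℂ _ (γ i y q) = 0 := by
    intro i y
    obtain ⟨H, hH, hs⟩ := sum_hom_E2 α (γ i y)
    rw [finsum_eq_sum_of_fintype] at hs
    rw [hs]
    have hbot : H = ⊥ := by
      rw [eq_bot_iff]
      intro f hfH
      rw [Submodule.mem_bot]
      by_contra hf0
      apply hcon
      rw [hH] at hfH
      obtain ⟨Z, h1, h2, h3⟩ := occ_of_map_E2 ρ hN hX (hU i) (ψ i) y f hf0 (fun a => hfH (QuotientGroup.mk a))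
      exact ⟨i, y, Z, h1, h2, h3⟩
    rw [hbot, finrank_bot, Nat.cast_zero, mul_zero]
  -- the trace on the quotient
  have htr : ∀ q : N ⧸ M.subgroupOf N, LinearMap.trace ℂ V (β q) =
      ∑ i, (n i : ℂ) * ∑ y : Γ ⧸ U i, LinearMap.trace ℂ _ (γ i y.out q) := by
    intro q
    obtain ⟨a, rfl⟩ := QuotientGroup.mk_surjective q
    have h := hv a a.2
    have e1 : β (QuotientGroup.mk a) = ρ a := rfl
    rw [e1, h]
    refine Finset.sum_congr rfl fun i _ => ?_
    congr 1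
    unfold Ind
    rw [finsum_eq_sum_of_fintype]
    refine Finset.sum_congr rfl fun y _ => ?_
    have hmem : y.out⁻¹ * (a : Γ) * y.out ∈ U i := hU i (by
      have := hN.conj_mem _ a.2 y.out⁻¹
      rwa [inv_inv] at this)
    unfold exz
    rw [dif_pos hmem]
    rfl
  obtain ⟨H, hH, hs⟩ := sum_hom_E2 α β
  rw [finsum_eq_sum_of_fintype] at hs
  have hsum : ∑ q : N ⧸ M.subgroupOf N, LinearMap.trace ℂ X (α q⁻¹) * LinearMap.trace ℂ V (β q) = 0 := by
    calc ∑ q : N ⧸ M.subgroupOf N, LinearMap.trace ℂ X (α q⁻¹) * LinearMap.trace ℂ V (β q)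
        = ∑ q : N ⧸ M.subgroupOf N, ∑ i, ∑ y : Γ ⧸ U i,
            (n i : ℂ) * (LinearMap.trace ℂ X (α q⁻¹) * LinearMap.trace ℂ _ (γ i y.out q)) := by
          refine Finset.sum_congr rfl fun q _ => ?_
          rw [htr q, Finset.mul_sum]
          refine Finset.sum_congr rfl fun i _ => ?_
          rw [Finset.mul_sum, Finset.mul_sum]
          refine Finset.sum_congr rfl fun y _ => ?_
          ring
      _ = ∑ i, ∑ y : Γ ⧸ U i, (n i : ℂ) *
            ∑ q : N ⧸ M.subgroupOf N, (LinearMap.trace ℂ X (α q⁻¹) * LinearMap.trace ℂ _ (γ i y.out q)) := by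
          rw [Finset.sum_comm]
          refine Finset.sum_congr rfl fun i _ => ?_
          rw [Finset.sum_comm]
          refine Finset.sum_congr rfl fun y _ => ?_
          rw [Finset.mul_sum]
      _ = 0 := by
          refine Finset.sum_eq_zero fun i _ => Finset.sum_eq_zero fun y _ => ?_
          rw [hzero i y.out, mul_zero]
  rw [hsum] at hs
  have hcard : (Nat.card (N ⧸ M.subgroupOf N) : ℂ) ≠ 0 := by
    rw [Nat.cast_ne_zero]
    exact Nat.card_pos.ne'
  have hfin : Module.finrank ℂ H = 0 := by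
    have := (mul_eq_zero.1 hs.symm).resolve_left hcard
    exact_mod_cast this
  have hbot : H = ⊥ := Submodule.finrank_eq_zero.1 hfin
  have hmem : X.subtype ∈ H := by
    rw [hH]
    intro q
    obtain ⟨a, rfl⟩ := QuotientGroup.mk_surjective q
    rfl
  rw [hbot, Submodule.mem_bot] at hmem
  apply hX.1
  rw [eq_bot_iff]
  intro x hx
  have := LinearMap.congr_fun hmem ⟨x, hx⟩
  exact this

end SB
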