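import Pool.Agent.Helper21.RB.A
import Pool.Agent.Helper21.RB.B1
import Pool.Agent.Helper21.RB.B3
import Pool.Agent.Helper21.RB.C1
import Pool.Agent.Helper21.RB.C2
import Pool.Agent.Helper21.RB.D
import Pool.Agent.Helper21.CC.I

/-!
# RB-F: representations are sums of representations induced from those irreducible on `N`
-/

namespace SB

universe u v

section
variable {Γ : Type u} [Group Γ] {V : Type v} [AddCommGroup V] [Module ℂ V]

theorem rho_inv_l (ρ : Γ →* (V →ₗ[ℂ] V)) (g : Γ) (v : V) : ρ g⁻¹ (ρ g v) = v := by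
  rw [← Module.End.mul_apply, ← map_mul, inv_mul_cancel, map_one, Module.End.one_apply]

theorem rho_inv_r (ρ : Γ →* (V →ₗ[ℂ] V)) (g : Γ) (v : V) : ρ g (ρ g⁻¹ v) = v := by
  rw [← Module.End.mul_apply, ← map_mul, mul_inv_cancel, map_one, Module.End.one_apply]

theorem map_map_rho (ρ : Γ →* (V →ₗ[ℂ] V)) (g h : Γ) (X : Submodule ℂ V) :
    (X.map (ρ g)).map (ρ h) = X.map (ρ (h * g)) := by
  rw [map_mul, Module.End.mul_eq_comp, Submodule.map_comp]

theorem map_one_rho (ρ : Γ →* (V →ₗ[ℂ] V)) (X : Submodule ℂ V) : X.map (ρ 1) = X := by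
  rw [map_one, Module.End.one_eq_id, Submodule.map_id]

/-- A stable subspace is equal to its images. -/
theorem map_of_stb (ρ : Γ →* (V →ₗ[ℂ] V)) {U : Subgroup Γ} {X : Submodule ℂ V} (h : Stb ρ U X) {g : Γ}
    (hg : g ∈ U) : X.map (ρ g) = X := by
  apply le_antisymm
  · rintro _ ⟨x, hx, rfl⟩
    exact h g hg x hx
  · intro x hx
    exact ⟨ρ g⁻¹ x, h _ (U.inv_mem hg) x hx, rho_inv_r ρ g x⟩

theorem IsoOn.symm' {ρ : Γ →* (V →ₗ[ℂ] V)} {N : Subgroup Γ} {X Y : Submodule ℂ V} (hX : Stb ρ N X)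
    (h : IsoOn ρ N X Y) : IsoOn ρ N Y X := by
  obtain ⟨f, hf⟩ := h
  refine ⟨f.symm, fun n hn y y' hy => ?_⟩
  have h1 := hf n hn (f.symm y) ⟨ρ n (f.symm y), hX n hn _ (f.symm y).2⟩ rfl
  rw [f.apply_symm_apply, ← hy] at h1
  have h2 : f ⟨ρ n (f.symm y), hX n hn _ (f.symm y).2⟩ = y' := Subtype.ext h1
  rw [← h2, f.symm_apply_apply]

/-- The action on the irreducible subspaces for a normal subgroup. -/
noncomputable def irrPerm (ρ : Γ →* (V →ₗ[ℂ] V)) {L : Subgroup Γ} (hL : L.Normal) :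
    Γ →* Equiv.Perm {Y : Submodule ℂ V // IrrOn ρ L Y} where
  toFun g :=
    { toFun := fun Y => ⟨Y.1.map (ρ g), irr_map ρ (fun l hl => hL.conj_mem l hl g)
        (fun l hl => by have := hL.conj_mem l hl g⁻¹; rwa [inv_inv] at this) Y.2⟩
      invFun := fun Y => ⟨Y.1.map (ρ g⁻¹), irr_map ρ (fun l hl => hL.conj_mem l hl g⁻¹)
        (fun l hl => by have := hL.conj_mem l hl g; rwa [inv_inv]) Y.2⟩
      left_inv := fun Y => Subtype.ext (by
        change (Y.1.map (ρ g)).map (ρ g⁻¹) = Y.1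
        rw [map_map_rho, inv_mul_cancel, map_one_rho])
      right_inv := fun Y => Subtype.ext (by
        change (Y.1.map (ρ g⁻¹)).map (ρ g) = Y.1
        rw [map_map_rho, mul_inv_cancel, map_one_rho]) }
  map_one' := by
    ext Y : 1
    exact Subtype.ext (map_one_rho ρ _)
  map_mul' g h := by
    ext Y : 1
    exact Subtype.ext (map_map_rho ρ h g _).symm

/-- The powers of a generator modulo `L` which are not in `L` are generators. -/
theorem gen_pow {q : ℕ} (hq : q.Prime) {L K : Subgroup Γ} {t : Γ} (h : IsStep q L K t) {d : ℕ} (hd : 0 < d)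
    (hdq : d < q) : ∀ k ∈ K, ∃ i : ℕ, ((t ^ d) ^ i)⁻¹ * k ∈ L := by
  intro k hk
  obtain ⟨e, he, hek⟩ := h.cover k hk
  have hc : Nat.Coprime d q := by
    rw [Nat.coprime_comm]
    exact (Nat.Prime.coprime_iff_not_dvd hq).2 (Nat.not_dvd_of_pos_of_lt hd hdq)
  obtain ⟨m, -, hm⟩ := Nat.exists_mul_mod_eq_one_of_coprime hc hq.one_lt
  refine ⟨m * e, ?_⟩
  have h1 : d * (m * e) % q = e := by
    rw [← mul_assoc, Nat.mul_mod, hm, one_mul, Nat.mod_mod, Nat.mod_eq_of_lt he]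
  have h2 : d * (m * e) = e + q * (d * (m * e) / q) := by
    have := Nat.mod_add_div (d * (m * e)) q
    rw [h1] at this
    exact this.symm
  rw [← pow_mul, h2, pow_add, pow_mul, mul_inv_rev, mul_assoc]
  exact L.mul_mem (L.inv_mem (L.pow_mem h.pow_mem _)) hek

/-- The family of the translates of an irreducible subspace. -/
theorem translates [FiniteDimensional ℂ V] (ρ : Γ →* (V →ₗ[ℂ] V)) {L K : Subgroup Γ} {q : ℕ} {t : Γ}
    (hL : L.Normal) (hq : q.Prime) (ht : IsStep q L K t) (hK : IrrOn ρ K ⊤) (hLr : ¬ IrrOn ρ L ⊤)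
    {X : Submodule ℂ V} (hX : IrrOn ρ L X) :
    (∀ i : ℕ, IrrOn ρ L (X.map (ρ (t ^ i)))) ∧
    (∀ i j : Fin q, i ≠ j → ¬ IsoOn ρ L (X.map (ρ (t ^ (i : ℕ)))) (X.map (ρ (t ^ (j : ℕ))))) ∧
    ⨆ i : Fin q, X.map (ρ (t ^ (i : ℕ))) = ⊤ := by
  have h1 : ∀ i : ℕ, IrrOn ρ L (X.map (ρ (t ^ i))) := fun i =>
    irr_map ρ (fun l hl => hL.conj_mem l hl _) (fun l hl => by
      have := hL.conj_mem l hl (t ^ i)⁻¹
      rwa [inv_inv] at this) hX
  have h2 : ∀ i j : ℕ, i < j → j < q → ¬ IsoOn ρ L (X.map (ρ (t ^ i))) (X.map (ρ (t ^ j))) := by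
    intro i j hij hj
    have e : X.map (ρ (t ^ j)) = (X.map (ρ (t ^ i))).map (ρ (t ^ (j - i))) := by
      rw [map_map_rho, ← pow_add, Nat.sub_add_cancel hij.le]
    rw [e]
    exact eig_trick ρ ht.le ht.norm (K.pow_mem ht.mem _) (gen_pow hq ht (by omega) (by omega)) hK hLr (h1 i)
  refine ⟨h1, fun i j hij => ?_, ?_⟩
  · rcases lt_or_gt_of_ne (fun h => hij (Fin.ext h) : (i : ℕ) ≠ j) with h | h
    · exact h2 i j h j.2
    · exact fun h' => h2 j i h i.2 (h'.symm' (h1 i).2.1)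
  · have hst : Stb ρ L (⨆ i : Fin q, X.map (ρ (t ^ (i : ℕ)))) := by
      intro l hl v hv
      have h3 : (⨆ i : Fin q, X.map (ρ (t ^ (i : ℕ)))).map (ρ l) ≤ ⨆ i : Fin q, X.map (ρ (t ^ (i : ℕ))) := by
        rw [Submodule.map_iSup]
        exact iSup_mono fun i => (map_of_stb ρ (h1 i).2.1 hl).le
      exact h3 ⟨v, hv, rfl⟩
    have htst : ∀ v ∈ (⨆ i : Fin q, X.map (ρ (t ^ (i : ℕ)))), ρ t v ∈ ⨆ i : Fin q, X.map (ρ (t ^ (i : ℕ))) := by
      intro v hv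
      have h3 : (⨆ i : Fin q, X.map (ρ (t ^ (i : ℕ)))).map (ρ t) ≤ ⨆ i : Fin q, X.map (ρ (t ^ (i : ℕ))) := by
        rw [Submodule.map_iSup]
        refine iSup_le fun i => ?_
        rw [map_map_rho, ← pow_succ']
        by_cases hi : (i : ℕ) + 1 < q
        · exact le_iSup (fun i : Fin q => X.map (ρ (t ^ (i : ℕ)))) ⟨(i : ℕ) + 1, hi⟩
        · have e : (i : ℕ) + 1 = q := by omega
          rw [e, map_of_stb ρ hX.2.1 ht.pow_mem]
          have h4 := le_iSup (fun i : Fin q => X.map (ρ (t ^ (i : ℕ)))) ⟨0, hq.pos⟩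
          rwa [pow_zero, map_one_rho] at h4
      exact h3 ⟨v, hv, rfl⟩
    have htpow : ∀ (e : ℕ), ∀ v ∈ (⨆ i : Fin q, X.map (ρ (t ^ (i : ℕ)))),
        ρ (t ^ e) v ∈ ⨆ i : Fin q, X.map (ρ (t ^ (i : ℕ))) := by
      intro e
      induction e with
      | zero => intro v hv; rw [pow_zero, map_one, Module.End.one_apply]; exact hv
      | succ e ih => intro v hv; rw [pow_succ', map_mul, Module.End.mul_apply]; exact htst _ (ih v hv)
    have hKst : Stb ρ K (⨆ i : Fin q, X.map (ρ (t ^ (i : ℕ)))) := by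
      intro k hk v hv
      obtain ⟨e, -, he⟩ := ht.cover k hk
      have e1 : k = t ^ e * ((t ^ e)⁻¹ * k) := by group
      rw [e1, map_mul, Module.End.mul_apply]
      exact htpow e _ (hst _ he v hv)
    rcases hK.2.2 _ le_top hKst with h | h
    · exfalso
      have h4 := le_iSup (fun i : Fin q => X.map (ρ (t ^ (i : ℕ)))) ⟨0, hq.pos⟩
      rw [h, pow_zero, map_one_rho] at h4
      exact hX.1 (le_bot_iff.1 h4)
    · exact h

/-- Clifford theory for a step of prime index. -/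
theorem cliff [FiniteDimensional ℂ V] (ρ : Γ →* (V →ₗ[ℂ] V)) {L K : Subgroup Γ} {q : ℕ} {t : Γ} (hL : L.Normal)
    (hq : q.Prime) (ht : IsStep q L K t) (hK : IrrOn ρ K ⊤) (hLr : ¬ IrrOn ρ L ⊤) :
    ∃ (T : Subgroup Γ) (X : Submodule ℂ V), L ≤ T ∧ Stb ρ T X ∧ X ≠ ⊤ ∧
      ∀ g, LinearMap.trace ℂ V (ρ g) = Ind T (trx ρ T X) g := by
  obtain ⟨X, -, hX⟩ := exists_irr ρ L (Y := ⊤) (fun _ _ _ _ => Submodule.mem_top) hK.1
  obtain ⟨h1, h2, h3⟩ := translates ρ hL hq ht hK hLr hX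
  have hall : ∀ Y : {Y : Submodule ℂ V // IrrOn ρ L Y}, ∃ i : Fin q, Y.1 = X.map (ρ (t ^ (i : ℕ))) := fun Y =>
    irr_mem ρ L (fun i : Fin q => X.map (ρ (t ^ (i : ℕ)))) (fun i => h1 i) h2 h3 Y.2
  choose ix hix using hall
  have hfin : Finite {Y : Submodule ℂ V // IrrOn ρ L Y} :=
    Finite.of_injective ix fun Y Y' h => Subtype.ext (by rw [hix Y, hix Y', h])
  have hne : ∀ Y Y' : {Y : Submodule ℂ V // IrrOn ρ L Y}, Y ≠ Y' → ¬ IsoOn ρ L Y.1 Y'.1 := by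
    intro Y Y' hYY
    rw [hix Y, hix Y']
    refine h2 _ _ fun h => hYY (Subtype.ext ?_)
    rw [hix Y, hix Y', h]
  have hind := irr_indep ρ L (fun Y : {Y : Submodule ℂ V // IrrOn ρ L Y} => Y.1) (fun Y => Y.2) hne
  have hsup : ⨆ Y : {Y : Submodule ℂ V // IrrOn ρ L Y}, Y.1 = ⊤ := by
    rw [eq_top_iff, ← h3]
    exact iSup_le fun i => le_iSup (fun Y : {Y : Submodule ℂ V // IrrOn ρ L Y} => Y.1) ⟨_, h1 i⟩
  have hmv : ∀ g (Y : {Y : Submodule ℂ V // IrrOn ρ L Y}), ∀ v ∈ Y.1, ρ g v ∈ (irrPerm ρ hL g Y).1 :=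
    fun g Y v hv => ⟨v, hv, rfl⟩
  refine ⟨Stz (irrPerm ρ hL) ⟨X, hX⟩, X, ?_, ?_, ?_, ?_⟩
  · intro l hl
    exact Subtype.ext (map_of_stb ρ hX.2.1 hl)
  · intro g hg v hv
    have h4 : X.map (ρ g) = X := congrArg Subtype.val hg
    rw [← h4]
    exact ⟨v, hv, rfl⟩
  · rintro rfl
    exact hLr hX
  · intro g
    rw [block_trace ρ (irrPerm ρ hL) (fun Y => Y.1) hind hsup hmv g,
      orbit_ind (irrPerm ρ hL) (fun Y => trx ρ (Stz (irrPerm ρ hL) Y) Y.1)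
        (fun h g i => trx_conj ρ (irrPerm ρ hL) (fun Y => Y.1) hmv h g i) (m := 1) (fun _ => ⟨X, hX⟩) (fun Y => ?_) g]
    · simp
    · refine ⟨0, ⟨t ^ (ix Y : ℕ), Subtype.ext (hix Y).symm⟩, fun j _ => Subsingleton.elim _ _⟩

end

end SB
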