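import Pool.Agent.Helper21.RB.F

/-!
# RB-F2: relative monomiality for groups which are cyclic-by-`p` modulo `N`
-/

namespace SB

universe u v

section
variable {Γ : Type u} [Group Γ] {V : Type v} [AddCommGroup V] [Module ℂ V]

/-- `v` is a sum of functions induced from traces on subspaces irreducible on `N`. -/
def RelSum (ρ : Γ →* (V →ₗ[ℂ] V)) (N : Subgroup Γ) (v : Γ → ℂ) : Prop :=
  ∃ (m : ℕ) (W : Fin m → Subgroup Γ) (X : Fin m → Submodule ℂ V),
    (∀ k, N ≤ W k ∧ Stb ρ (W k) (X k) ∧ IrrOn ρ N (X k)) ∧ ∀ g, v g = ∑ k, Ind (W k) (trx ρ (W k) (X k)) g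

theorem relSum_of_fintype (ρ : Γ →* (V →ₗ[ℂ] V)) (N : Subgroup Γ) {v : Γ → ℂ} {ι : Type} [Fintype ι]
    (W : ι → Subgroup Γ) (X : ι → Submodule ℂ V) (h : ∀ k, N ≤ W k ∧ Stb ρ (W k) (X k) ∧ IrrOn ρ N (X k))
    (hv : ∀ g, v g = ∑ k, Ind (W k) (trx ρ (W k) (X k)) g) : RelSum ρ N v := by
  let e := (Fintype.equivFin ι).symm
  refine ⟨Fintype.card ι, fun i => W (e i), fun i => X (e i), fun i => h _, fun g => ?_⟩
  rw [hv g]
  exact (e.sum_comp (fun k => Ind (W k) (trx ρ (W k) (X k)) g)).symm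

theorem relSum_zero (ρ : Γ →* (V →ₗ[ℂ] V)) (N : Subgroup Γ) {v : Γ → ℂ} (hv : ∀ g, v g = 0) : RelSum ρ N v :=
  ⟨0, fun k => k.elim0, fun k => k.elim0, fun k => k.elim0, fun g => by simp [hv g]⟩

theorem relSum_add {ρ : Γ →* (V →ₗ[ℂ] V)} {N : Subgroup Γ} {v w z : Γ → ℂ} (hv : RelSum ρ N v)
    (hw : RelSum ρ N w) (h : ∀ g, z g = v g + w g) : RelSum ρ N z := by
  obtain ⟨m, W, X, h1, h2⟩ := hv
  obtain ⟨m', W', X', h1', h2'⟩ := hw
  refine relSum_of_fintype ρ N (ι := Fin m ⊕ Fin m') (Sum.elim W W') (Sum.elim X X') ?_ fun g => ?_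
  · rintro (k | k)
    · exact h1 k
    · exact h1' k
  · rw [h g, h2 g, h2' g, Fintype.sum_sum_type]
    rfl

theorem trx_top (ρ : Γ →* (V →ₗ[ℂ] V)) (U : Subgroup Γ) {g : Γ} (hg : g ∈ U) :
    trx ρ U ⊤ g = LinearMap.trace ℂ V (ρ g) := by
  have h : g ∈ U ∧ ∀ v ∈ (⊤ : Submodule ℂ V), ρ g v ∈ (⊤ : Submodule ℂ V) := ⟨hg, fun _ _ => Submodule.mem_top⟩
  rw [trx, dif_pos h]
  have e : (ρ g).restrict h.2 = (LinearEquiv.symm (Submodule.topEquiv (R := ℂ) (M := V))).conj (ρ g) := by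
    apply LinearMap.ext
    intro x
    rfl
  rw [e, LinearMap.trace_conj']

theorem trx_apply (ρ : Γ →* (V →ₗ[ℂ] V)) {U : Subgroup Γ} {X : Submodule ℂ V} (h : Stb ρ U X) (u : U) :
    trx ρ U X u = LinearMap.trace ℂ X (resRep ρ U X h u) := by
  have h1 : (u : Γ) ∈ U ∧ ∀ v ∈ X, ρ u v ∈ X := ⟨u.2, h u u.2⟩
  rw [trx, dif_pos h1]
  rfl

/-- Trace on a direct sum of stable subspaces. -/
theorem trx_compl [FiniteDimensional ℂ V] (ρ : Γ →* (V →ₗ[ℂ] V)) {U : Subgroup Γ} {X Z : Submodule ℂ V}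
    (hX : Stb ρ U X) (hZ : Stb ρ U Z) (hc : IsCompl X Z) {g : Γ} (hg : g ∈ U) :
    LinearMap.trace ℂ V (ρ g) = trx ρ U X g + trx ρ U Z g := by
  have h1 : g ∈ U ∧ ∀ v ∈ X, ρ g v ∈ X := ⟨hg, hX g hg⟩
  have h2 : g ∈ U ∧ ∀ v ∈ Z, ρ g v ∈ Z := ⟨hg, hZ g hg⟩
  rw [trx, dif_pos h1, trx, dif_pos h2]
  have hint : DirectSum.IsInternal (fun b : Bool => cond b X Z) := by
    rw [DirectSum.isInternal_submodule_iff_isCompl (fun b : Bool => cond b X Z) (i := true) (j := false) (by decide)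
      (by ext b; cases b <;> simp)]
    exact hc
  have hm : ∀ b : Bool, Set.MapsTo (ρ g) (cond b X Z : Submodule ℂ V) (cond b X Z : Submodule ℂ V) := by
    intro b
    cases b
    · exact h2.2
    · exact h1.2
  rw [LinearMap.trace_eq_sum_trace_restrict hint hm, Fintype.sum_bool]
  rfl

end

/-- The inductive hypothesis of `relmon`. -/
def RelHyp (p n : ℕ) : Prop :=
  ∀ (G : Type u) [Group G] (V : Type v) [AddCommGroup V] [Module ℂ V] [FiniteDimensional ℂ V]
    (ρ : G →* (V →ₗ[ℂ] V)) (M N C : Subgroup G), M.Normal → M.FiniteIndex → M ≤ N → (∀ g ∈ M, ρ g = 1) →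
    CycP p N C → Module.finrank ℂ V ≤ n → RelSum ρ N (fun g => LinearMap.trace ℂ V (ρ g))

section
variable {Γ : Type u} [Group Γ] {V : Type v} [AddCommGroup V] [Module ℂ V]

theorem sub_step [FiniteDimensional ℂ V] {p n : ℕ} (ih : RelHyp.{u, v} p n) (ρ : Γ →* (V →ₗ[ℂ] V))
    {M N T : Subgroup Γ} (hM : M.Normal) (hf : M.FiniteIndex) (hMN : M ≤ N) (hρ : ∀ g ∈ M, ρ g = 1) (hNT : N ≤ T)
    {C : Subgroup T} (hC : CycP p (N.subgroupOf T) C) {Y : Submodule ℂ V} (hY : Stb ρ T Y)
    (hn : Module.finrank ℂ Y ≤ n) : RelSum ρ N (fun g => Ind T (trx ρ T Y) g) := by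
  have hMT : (M.subgroupOf T).Normal := by
    refine ⟨fun a ha b => ?_⟩
    rw [Subgroup.mem_subgroupOf] at ha ⊢
    exact hM.conj_mem _ ha _
  have hMf : (M.subgroupOf T).FiniteIndex := inferInstance
  have hTf : T.FiniteIndex := Subgroup.finiteIndex_of_le (hMN.trans hNT)
  have hMN' : M.subgroupOf T ≤ N.subgroupOf T := Subgroup.comap_mono hMN
  obtain ⟨m, W, X, h1, h2⟩ := ih T Y (resRep ρ T Y hY) (M.subgroupOf T) (N.subgroupOf T) C hMT hMf hMN'
    (fun g hg => by
      apply LinearMap.ext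
      intro x
      apply Subtype.ext
      change ρ (g : Γ) x = x
      rw [hρ g hg, Module.End.one_apply]) hC hn
  have hWf : ∀ k, (W k).FiniteIndex := fun k => Subgroup.finiteIndex_of_le (hMN'.trans (h1 k).1)
  refine ⟨m, fun k => (W k).map T.subtype, fun k => (X k).map Y.subtype, fun k => ⟨?_, ?_, ?_⟩, fun g => ?_⟩
  · have h3 := Subgroup.map_mono (f := T.subtype) (h1 k).1
    rwa [Subgroup.subgroupOf_map_subtype, inf_eq_left.2 hNT] at h3
  · exact (stb_res ρ hY (W k) (X k)).1 (h1 k).2.1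
  · exact (irr_res ρ hY hNT (X k)).1 (h1 k).2.2
  · exact ind_res ρ hTf hY W hWf X (fun k => (h1 k).2.1) h2 g

theorem relmon {p : ℕ} (hp : p.Prime) (n : ℕ) : RelHyp.{u, v} p n := by
  induction n with
  | zero =>
    intro G _ V _ _ _ ρ M N C _ _ _ _ _ hd
    have h0 : Subsingleton V := Module.finrank_zero_iff.1 (Nat.le_zero.1 hd)
    refine relSum_zero ρ N fun g => ?_
    have : ρ g = 0 := Subsingleton.elim _ _
    rw [this, map_zero]
  | succ n ih =>
    intro G _ V _ _ _ ρ M N C hM hf hMN hρ hC hd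
    have hNn : N.Normal := hC.1
    have hNf : N.FiniteIndex := Subgroup.finiteIndex_of_le hMN
    have hcls : ∀ g x, LinearMap.trace ℂ V (ρ (x⁻¹ * g * x)) = LinearMap.trace ℂ V (ρ g) := tr_conj ρ
    by_cases h0 : Module.finrank ℂ V = 0
    · have h0 : Subsingleton V := Module.finrank_zero_iff.1 h0
      refine relSum_zero ρ N fun g => ?_
      have : ρ g = 0 := Subsingleton.elim _ _
      rw [this, map_zero]
    · have htop : (⊤ : Submodule ℂ V) ≠ ⊥ := by
        intro h
        apply h0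
        rw [← finrank_top ℂ V, h, finrank_bot]
      have hstop : ∀ U : Subgroup G, Stb ρ U ⊤ := fun U _ _ _ _ => Submodule.mem_top
      by_cases hirr : IrrOn ρ (⊤ : Subgroup G) ⊤
      · by_cases hN : IrrOn ρ N ⊤
        · refine ⟨1, fun _ => ⊤, fun _ => ⊤, fun _ => ⟨le_top, hstop _, hN⟩, fun g => ?_⟩
          rw [Fintype.sum_unique]
          have e : trx ρ (⊤ : Subgroup G) ⊤ = fun g => LinearMap.trace ℂ V (ρ g) := by
            funext g
            exact trx_top ρ ⊤ (Subgroup.mem_top g)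
          rw [e, Ind_top hcls]
        · -- a maximal normal subgroup on which `V` is reducible
          classical
          let S : Set ℕ := {i | ∃ L : Subgroup G, L.Normal ∧ N ≤ L ∧ ¬ IrrOn ρ L ⊤ ∧ L.index = i}
          have hS : ∃ i, i ∈ S := ⟨N.index, N, hNn, le_rfl, hN, rfl⟩
          obtain ⟨L, hL, hNL, hLr, hLi⟩ : Nat.find hS ∈ S := Nat.find_spec hS
          have hLne : L ≠ ⊤ := by
            rintro rfl
            exact hLr hirr
          have hLf : L.FiniteIndex := Subgroup.finiteIndex_of_le hNL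
          obtain ⟨K, q, t, hK, hq, ht⟩ := exists_prime_step hp hC hNf hL hNL hLne
          have hKirr : IrrOn ρ K ⊤ := by
            by_contra hKr
            have h1 := Nat.find_min' hS (⟨K, hK, hNL.trans ht.le, hKr, rfl⟩ : K.index ∈ S)
            rw [← hLi] at h1
            have h2 : K.index ∣ L.index := Subgroup.index_dvd_of_le ht.le
            have h3 : L.index = K.index :=
              le_antisymm h1 (Nat.le_of_dvd (Nat.pos_of_ne_zero hLf.index_ne_zero) h2)
            have h4 : L.relIndex K * K.index = L.index := Subgroup.relIndex_mul_index ht.le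
            have hKf : K.FiniteIndex := Subgroup.finiteIndex_of_le ht.le
            have h5 : L.relIndex K = 1 := by
              rw [h3] at h4
              exact Nat.eq_of_mul_eq_mul_right (Nat.pos_of_ne_zero hKf.index_ne_zero) (by rw [h4, one_mul])
            have h6 : K ≤ L := Subgroup.relIndex_eq_one.1 h5
            have h7 := ht.inj 1 hq.one_lt (by rw [pow_one]; exact h6 ht.mem)
            exact one_ne_zero h7
          obtain ⟨T, X, hLT, hTX, hXne, htr⟩ := cliff ρ hL hq ht hKirr hLr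
          have hlt : Module.finrank ℂ X < Module.finrank ℂ V := Submodule.finrank_lt hXne
          obtain ⟨m, W, Y, h1, h2⟩ := sub_step ih ρ hM hf hMN hρ (hNL.trans hLT)
            (hC.sub hp hNf T (hNL.trans hLT)) hTX (by omega)
          exact ⟨m, W, Y, h1, fun g => (htr g).trans (h2 g)⟩
      · -- reducible case
        have hred : ∃ Y : Submodule ℂ V, Stb ρ ⊤ Y ∧ Y ≠ ⊥ ∧ Y ≠ ⊤ := by
          by_contra hcon
          push Not at hcon
          exact hirr ⟨htop, hstop _, fun Y _ hY => by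
            by_cases h : Y = ⊥
            · exact Or.inl h
            · exact Or.inr (hcon Y hY h)⟩
        obtain ⟨Y, hY, hY0, hY1⟩ := hred
        obtain ⟨Z, hZ, hYZ⟩ := exists_compl ρ hM hf hρ ⊤ hY
        have hZ1 : Z ≠ ⊤ := by
          rintro rfl
          apply hY0
          have := hYZ.inf_eq_bot
          rwa [inf_top_eq] at this
        have hdY : Module.finrank ℂ Y < Module.finrank ℂ V := Submodule.finrank_lt hY1
        have hdZ : Module.finrank ℂ Z < Module.finrank ℂ V := Submodule.finrank_lt hZ1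
        have hCt := hC.sub hp hNf ⊤ le_top
        refine relSum_add (sub_step ih ρ hM hf hMN hρ le_top hCt hY (by omega))
          (sub_step ih ρ hM hf hMN hρ le_top hCt hZ (by omega)) fun g => ?_
        have e : (fun g => LinearMap.trace ℂ V (ρ g)) = trx ρ ⊤ Y + trx ρ ⊤ Z := by
          funext g
          exact trx_compl ρ hY hZ hYZ (Subgroup.mem_top g)
        have h3 : Ind (⊤ : Subgroup G) (trx ρ ⊤ Y + trx ρ ⊤ Z) g = LinearMap.trace ℂ V (ρ g) := by
          rw [← e, Ind_top hcls]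
        rw [← h3]
        exact Ind_add_A2 inferInstance _ _ g

end

end SB
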