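import Pool.Agent.Helper21.RB.F2

/-!
# RB-G: every representation is an integral combination of representations induced from those irreducible on `N`
-/

namespace SB

universe u v

section
variable {Γ : Type u} [Group Γ] {V : Type v} [AddCommGroup V] [Module ℂ V]

/-- `v` is an integral combination of functions induced from traces on subspaces irreducible on `N`. -/
def RelComb (ρ : Γ →* (V →ₗ[ℂ] V)) (N : Subgroup Γ) (v : Γ → ℂ) : Prop :=
  ∃ (m : ℕ) (n : Fin m → ℤ) (W : Fin m → Subgroup Γ) (X : Fin m → Submodule ℂ V),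
    (∀ k, N ≤ W k ∧ Stb ρ (W k) (X k) ∧ IrrOn ρ N (X k)) ∧
    ∀ g, v g = ∑ k, (n k : ℂ) * Ind (W k) (trx ρ (W k) (X k)) g

theorem relComb_of_fintype (ρ : Γ →* (V →ₗ[ℂ] V)) (N : Subgroup Γ) {v : Γ → ℂ} {ι : Type} [Fintype ι]
    (n : ι → ℤ) (W : ι → Subgroup Γ) (X : ι → Submodule ℂ V)
    (h : ∀ k, N ≤ W k ∧ Stb ρ (W k) (X k) ∧ IrrOn ρ N (X k))
    (hv : ∀ g, v g = ∑ k, (n k : ℂ) * Ind (W k) (trx ρ (W k) (X k)) g) : RelComb ρ N v := by
  let e := (Fintype.equivFin ι).symm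
  refine ⟨Fintype.card ι, fun i => n (e i), fun i => W (e i), fun i => X (e i), fun i => h _, fun g => ?_⟩
  rw [hv g]
  exact (e.sum_comp (fun k => (n k : ℂ) * Ind (W k) (trx ρ (W k) (X k)) g)).symm

theorem relComb_of_relSum {ρ : Γ →* (V →ₗ[ℂ] V)} {N : Subgroup Γ} {v : Γ → ℂ} (h : RelSum ρ N v) : RelComb ρ N v := by
  obtain ⟨m, W, X, h1, h2⟩ := h
  exact ⟨m, fun _ => 1, W, X, h1, fun g => by simp [h2 g]⟩

theorem relComb_zero (ρ : Γ →* (V →ₗ[ℂ] V)) (N : Subgroup Γ) : RelComb ρ N (fun _ => 0) :=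
  ⟨0, fun k => k.elim0, fun k => k.elim0, fun k => k.elim0, fun k => k.elim0, fun g => by simp⟩

theorem relComb_add {ρ : Γ →* (V →ₗ[ℂ] V)} {N : Subgroup Γ} {v w z : Γ → ℂ} (hv : RelComb ρ N v)
    (hw : RelComb ρ N w) (h : ∀ g, z g = v g + w g) : RelComb ρ N z := by
  obtain ⟨m, n, W, X, h1, h2⟩ := hv
  obtain ⟨m', n', W', X', h1', h2'⟩ := hw
  refine relComb_of_fintype ρ N (ι := Fin m ⊕ Fin m') (Sum.elim n n') (Sum.elim W W') (Sum.elim X X') ?_ fun g => ?_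
  · rintro (k | k)
    · exact h1 k
    · exact h1' k
  · rw [h g, h2 g, h2' g, Fintype.sum_sum_type]
    rfl

theorem relComb_zmul {ρ : Γ →* (V →ₗ[ℂ] V)} {N : Subgroup Γ} {v w : Γ → ℂ} (a : ℤ) (hv : RelComb ρ N v)
    (h : ∀ g, w g = (a : ℂ) * v g) : RelComb ρ N w := by
  obtain ⟨m, n, W, X, h1, h2⟩ := hv
  refine ⟨m, fun k => a * n k, W, X, h1, fun g => ?_⟩
  rw [h g, h2 g, Finset.mul_sum]
  push_cast
  exact Finset.sum_congr rfl fun k _ => by ring

theorem relComb_sum {ρ : Γ →* (V →ₗ[ℂ] V)} {N : Subgroup Γ} {m : ℕ} (a : Fin m → ℤ) (w : Fin m → Γ → ℂ)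
    (h : ∀ i, RelComb ρ N (w i)) : RelComb ρ N (fun g => ∑ i, (a i : ℂ) * w i g) := by
  induction m with
  | zero => simpa using relComb_zero ρ N
  | succ m ih =>
    simp only [Fin.sum_univ_castSucc]
    exact relComb_add (ih (fun i => a i.castSucc) (fun i => w i.castSucc) fun i => h _)
      (relComb_zmul (a (Fin.last m)) (h (Fin.last m)) fun _ => rfl) fun _ => rfl

/-- Brauer induction relative to a normal subgroup `N`. -/
theorem rel_brauer [FiniteDimensional ℂ V] (ρ : Γ →* (V →ₗ[ℂ] V)) {M N : Subgroup Γ} (hM : M.Normal)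
    (hf : M.FiniteIndex) (hN : N.Normal) (hMN : M ≤ N) (hρ : ∀ g ∈ M, ρ g = 1) :
    RelComb ρ N (fun g => LinearMap.trace ℂ V (ρ g)) := by
  have hNf : N.FiniteIndex := Subgroup.finiteIndex_of_le hMN
  obtain ⟨m, a, p, U, C, hp, hab, hz, -, hsum⟩ := gSolPull N hN hNf
  have key := hsum (fun g => LinearMap.trace ℂ V (ρ g)) (fun g x => by simp only [tr_conj])
  have e : (fun g => LinearMap.trace ℂ V (ρ g)) = fun g =>
      ∑ i, (a i : ℂ) * Ind (U i) (Set.indicator (U i : Set Γ) fun g => LinearMap.trace ℂ V (ρ g)) g := funext key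
  rw [e]
  refine relComb_sum a _ fun i => ?_
  have hNU : N ≤ U i := (hab i).mc.trans (hab i).cu
  have hst : Stb ρ (U i) ⊤ := fun _ _ _ _ => Submodule.mem_top
  have e2 : Set.indicator (U i : Set Γ) (fun g => LinearMap.trace ℂ V (ρ g)) = trx ρ (U i) ⊤ := by
    funext g
    by_cases hg : g ∈ U i
    · rw [Set.indicator_of_mem (by exact hg), trx_top ρ (U i) hg]
    · rw [Set.indicator_of_notMem (by exact hg), trx, dif_neg fun h => hg h.1]
  rw [e2]
  exact relComb_of_relSum (sub_step (relmon (hp i) (Module.finrank ℂ (⊤ : Submodule ℂ V))) ρ hM hf hMN hρ hNU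
    (cycP_of_abExt hN (hab i) (hz i)) hst le_rfl)

/-- If `M` acts trivially, irreducibility on `C` and on `C ⊔ M` are equivalent. -/
theorem stb_sup (ρ : Γ →* (V →ₗ[ℂ] V)) {M C : Subgroup Γ} (hM : M.Normal) (hρ : ∀ g ∈ M, ρ g = 1)
    (X : Submodule ℂ V) : Stb ρ (C ⊔ M) X ↔ Stb ρ C X := by
  constructor
  · exact fun h g hg => h g (Subgroup.mem_sup_left hg)
  · intro h g hg v hv
    obtain ⟨c, hc, m, hm, rfl⟩ := Subgroup.mem_sup_of_normal_right.1 hg
    rw [map_mul, hρ m hm, mul_one]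
    exact h c hc v hv

theorem irr_sup (ρ : Γ →* (V →ₗ[ℂ] V)) {M C : Subgroup Γ} (hM : M.Normal) (hρ : ∀ g ∈ M, ρ g = 1)
    (X : Submodule ℂ V) : IrrOn ρ (C ⊔ M) X ↔ IrrOn ρ C X := by
  unfold IrrOn
  rw [stb_sup ρ hM hρ X]
  simp only [stb_sup ρ hM hρ]

end

end SB
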