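import Pool.Agent.Helper83.RB.St

/-!
Module POL of project RB: noncommutative inclusion-exclusion over the subsets of `Fin n`.
-/

set_option autoImplicit false

namespace Pool.Agent.Helper21.RB

open Pool.Agent.Helper83.RB

/-- the letters of `A` in increasing order -/
private def wd {n : ℕ} (A : Finset (Fin n)) : List (Fin n) := (List.finRange n).filter (· ∈ A)

private theorem mem_wd {n : ℕ} {A : Finset (Fin n)} {i : Fin n} : i ∈ wd A ↔ i ∈ A := by
  unfold wd
  simp

private theorem wd_nodup {n : ℕ} (A : Finset (Fin n)) : (wd A).Nodup :=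
  (List.nodup_finRange n).filter _

private theorem wd_toFinset {n : ℕ} (A : Finset (Fin n)) : (wd A).toFinset = A := by
  ext i
  rw [List.mem_toFinset, mem_wd]

private theorem wd_length {n : ℕ} (A : Finset (Fin n)) : (wd A).length = A.card := by
  rw [← List.toFinset_card_of_nodup (wd_nodup A), wd_toFinset]

private theorem expand {n : ℕ} {R : Type} [Ring R] (x : Fin n → R) (l : List (Fin n))
    (hl : l.Nodup) :
    (l.map (fun i => 1 + x i)).prod =
      ∑ A ∈ l.toFinset.powerset, ((l.filter (· ∈ A)).map x).prod := by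
  induction l with
  | nil => simp
  | cons a l ih =>
    rw [List.nodup_cons] at hl
    have ha : a ∉ l.toFinset := by simpa using hl.1
    rw [List.map_cons, List.prod_cons, ih hl.2, List.toFinset_cons,
      Finset.sum_powerset_insert ha, add_mul, one_mul, Finset.mul_sum]
    congr 1
    · refine Finset.sum_congr rfl fun A hA => ?_
      have haA : a ∉ A := fun h => ha (Finset.mem_powerset.1 hA h)
      rw [List.filter_cons_of_neg (by simpa using haA)]
    · refine Finset.sum_congr rfl fun A hA => ?_
      rw [List.filter_cons_of_pos (by simp), List.map_cons, List.prod_cons]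
      congr 3
      refine List.filter_congr fun i hi => ?_
      have hia : i ≠ a := fun h => hl.1 (h ▸ hi)
      simp [hia]

private theorem expand_wd {n : ℕ} {R : Type} [Ring R] (x : Fin n → R) (S : Finset (Fin n)) :
    ((wd S).map (fun i => 1 + x i)).prod = ∑ A ∈ S.powerset, ((wd A).map x).prod := by
  rw [expand x (wd S) (wd_nodup S), wd_toFinset]
  refine Finset.sum_congr rfl fun A hA => ?_
  have hA' := Finset.mem_powerset.1 hA
  have : (wd S).filter (· ∈ A) = wd A := by
    unfold wd
    rw [List.filter_filter]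
    refine List.filter_congr fun i _ => ?_
    by_cases h : i ∈ A
    · simp [h, hA' h]
    · simp [h]
  rw [this]

private theorem pow_expand {n : ℕ} {R : Type} [Ring R] (x : Fin n → R) (S : Finset (Fin n)) :
    (((wd S).map (fun i => 1 + x i)).prod - 1) ^ n =
      ∑ r ∈ Fintype.piFinset (fun _ : Fin n => S.powerset.erase ∅),
        (List.ofFn fun i => ((wd (r i)).map x).prod).prod := by
  have h0 : ((wd S).map (fun i => 1 + x i)).prod - 1 =
      ∑ A ∈ S.powerset.erase ∅, ((wd A).map x).prod := by
    rw [expand_wd, ← Finset.add_sum_erase _ _ (Finset.empty_mem_powerset S)]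
    have : wd (∅ : Finset (Fin n)) = [] := by simp [wd]
    rw [this]
    simp
  rw [h0]
  have h1 := MultilinearMap.map_sum_finset (MultilinearMap.mkPiAlgebraFin ℤ n R)
    (fun (_ : Fin n) (A : Finset (Fin n)) => ((wd A).map x).prod)
    (fun _ => S.powerset.erase ∅)
  simp only [MultilinearMap.mkPiAlgebraFin_apply] at h1
  rw [← h1, List.ofFn_const, List.prod_replicate]

private theorem word_prod {n : ℕ} {R : Type} [Ring R] (x : Fin n → R)
    (r : Fin n → Finset (Fin n)) :
    (List.ofFn fun i => ((wd (r i)).map x).prod).prod =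
      (((List.ofFn fun i => wd (r i)).flatten).map x).prod := by
  rw [List.map_flatten, List.prod_flatten, List.map_map]
  congr 1
  rw [List.map_ofFn]
  rfl

private theorem word_length {n : ℕ} (r : Fin n → Finset (Fin n)) :
    ((List.ofFn fun i => wd (r i)).flatten).length = ∑ i, (r i).card := by
  rw [List.length_flatten, List.map_ofFn, List.sum_ofFn]
  refine Finset.sum_congr rfl fun i _ => ?_
  exact wd_length (r i)

private theorem sum_zero {n : ℕ} {R : Type} [Ring R] (x : Fin n → R)
    (h : ∀ S : Finset (Fin n), (((wd S).map (fun i => 1 + x i)).prod - 1) ^ n = 0) :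
    ∑ r ∈ Finset.univ.filter (fun r : Fin n → Finset (Fin n) =>
        (∀ i, (r i).Nonempty) ∧ ∀ i, ∃ j, i ∈ r j),
      (List.ofFn fun i => ((wd (r i)).map x).prod).prod = 0 := by
  classical
  have h1 : ∑ Y : Finset (Fin n), ((-1 : ℤ) ^ Y.card) •
      (((wd Yᶜ).map (fun i => 1 + x i)).prod - 1) ^ n = 0 := by
    refine Finset.sum_eq_zero fun Y _ => ?_
    rw [h, smul_zero]
  simp only [pow_expand] at h1
  have h2 : ∀ Y : Finset (Fin n),
      ∑ r ∈ Fintype.piFinset (fun _ : Fin n => (Yᶜ).powerset.erase ∅),
        (List.ofFn fun i => ((wd (r i)).map x).prod).prod =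
      ∑ r : Fin n → Finset (Fin n), if ((∀ i, (r i).Nonempty) ∧ ∀ i, r i ⊆ Yᶜ) then
        (List.ofFn fun i => ((wd (r i)).map x).prod).prod else 0 := by
    intro Y
    rw [← Finset.sum_filter]
    refine Finset.sum_congr ?_ fun _ _ => rfl
    ext r
    simp only [Fintype.mem_piFinset, Finset.mem_erase, Finset.mem_powerset, Finset.mem_filter,
      Finset.mem_univ, true_and, Finset.nonempty_iff_ne_empty]
    exact forall_and
  simp only [h2, Finset.smul_sum] at h1
  rw [Finset.sum_comm] at h1
  rw [Finset.sum_filter]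
  refine Eq.trans ?_ h1
  refine Finset.sum_congr rfl fun r _ => ?_
  by_cases hne : ∀ i, (r i).Nonempty
  · have hsub : ∀ Y : Finset (Fin n), (∀ i, r i ⊆ Yᶜ) ↔
        Y ⊆ (Finset.univ.biUnion r)ᶜ := by
      intro Y
      rw [← Finset.compl_subset_compl, compl_compl, Finset.biUnion_subset]
      simp
    have h3 : ∀ Y : Finset (Fin n), (((-1 : ℤ) ^ Y.card) •
        (if ((∀ i, (r i).Nonempty) ∧ ∀ i, r i ⊆ Yᶜ) then
          (List.ofFn fun i => ((wd (r i)).map x).prod).prod else 0) : R) =
        (if Y ⊆ (Finset.univ.biUnion r)ᶜ then ((-1 : ℤ) ^ Y.card) else 0) •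
          (List.ofFn fun i => ((wd (r i)).map x).prod).prod := by
      intro Y
      by_cases hY : Y ⊆ (Finset.univ.biUnion r)ᶜ
      · rw [if_pos ⟨hne, (hsub Y).2 hY⟩, if_pos hY]
      · rw [if_neg (fun hh => hY ((hsub Y).1 hh.2)), if_neg hY, smul_zero, zero_smul]
    simp only [h3]
    rw [← Finset.sum_smul, ← Finset.sum_filter]
    have h4 : (Finset.univ.filter fun Y : Finset (Fin n) => Y ⊆ (Finset.univ.biUnion r)ᶜ) =
        ((Finset.univ.biUnion r)ᶜ).powerset := by
      ext Y
      simp
    rw [h4, Finset.sum_powerset_neg_one_pow_card]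
    by_cases hU : ∀ i, ∃ j, i ∈ r j
    · have h5 : (Finset.univ.biUnion r)ᶜ = ∅ := by
        rw [Finset.compl_eq_empty_iff]
        ext i
        simpa using hU i
      rw [if_pos ⟨hne, hU⟩, if_pos h5, one_smul]
    · have h5 : (Finset.univ.biUnion r)ᶜ ≠ ∅ := by
        intro hc
        rw [Finset.compl_eq_empty_iff] at hc
        apply hU
        intro i
        have := Finset.mem_univ i
        rw [← hc] at this
        simpa using this
      rw [if_neg (fun hh => hU hh.2), if_neg h5, zero_smul]
  · rw [if_neg (fun hh => hne hh.1)]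
    symm
    refine Finset.sum_eq_zero fun Y _ => ?_
    rw [if_neg (fun hh => hne hh.1), smul_zero]

theorem hPOL : StPOL := by
  intro R _ n x h
  classical
  have h0 := sum_zero x h
  set Rr := Finset.univ.filter (fun r : Fin n → Finset (Fin n) =>
        (∀ i, (r i).Nonempty) ∧ ∀ i, ∃ j, i ∈ r j) with hRr
  rw [← Finset.sum_filter_add_sum_filter_not Rr (fun r => ∑ i, (r i).card = n)] at h0
  have h1 : ∑ r ∈ Rr.filter (fun r => ∑ i, (r i).card = n),
      (List.ofFn fun i => ((wd (r i)).map x).prod).prod =
      ∑ σ : Equiv.Perm (Fin n), (List.ofFn fun i => x (σ i)).prod := by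
    symm
    refine Finset.sum_bij (fun (σ : Equiv.Perm (Fin n)) _ => fun i => ({σ i} : Finset (Fin n)))
      ?_ ?_ ?_ ?_
    · intro σ _
      simp only [hRr, Finset.mem_filter, Finset.mem_univ, true_and, Finset.singleton_nonempty,
        Finset.mem_singleton, Finset.card_singleton, Finset.sum_const, Finset.card_univ,
        Fintype.card_fin, smul_eq_mul, mul_one, and_true, implies_true]
      intro i
      exact ⟨σ.symm i, by simp⟩
    · intro σ _ τ _ hst
      ext i
      have := congrFun hst i
      simp only [Finset.singleton_inj] at this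
      rw [this]
    · intro r hr
      rw [Finset.mem_filter, hRr, Finset.mem_filter] at hr
      obtain ⟨⟨-, hne, hU⟩, hsum⟩ := hr
      have hcard : ∀ i, (r i).card = 1 := by
        have hge : ∀ i ∈ (Finset.univ : Finset (Fin n)), 1 ≤ (r i).card :=
          fun i _ => Finset.card_pos.2 (hne i)
        have heq : ∑ i : Fin n, 1 = ∑ i, (r i).card := by
          rw [hsum]; simp
        intro i
        exact ((Finset.sum_eq_sum_iff_of_le hge).1 heq i (Finset.mem_univ i)).symm
      choose f hf using fun i => Finset.card_eq_one.1 (hcard i)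
      have hsurj : Function.Surjective f := by
        intro i
        obtain ⟨j, hj⟩ := hU i
        rw [hf j, Finset.mem_singleton] at hj
        exact ⟨j, hj.symm⟩
      refine ⟨Equiv.ofBijective f (Finite.injective_iff_bijective.1
        (Finite.injective_iff_surjective.2 hsurj)), Finset.mem_univ _, ?_⟩
      funext i
      rw [hf i]
      rfl
    · intro σ _
      congr 1
      congr 1
      funext i
      have : wd ({σ i} : Finset (Fin n)) = [σ i] := by
        have h2 := wd_length ({σ i} : Finset (Fin n))
        rw [Finset.card_singleton, List.length_eq_one_iff] at h2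
        obtain ⟨a, ha⟩ := h2
        have h3 : σ i ∈ wd ({σ i} : Finset (Fin n)) := mem_wd.2 (Finset.mem_singleton_self _)
        rw [ha, List.mem_singleton] at h3
        rw [ha, h3]
      rw [this]
      simp
  rw [h1] at h0
  rw [eq_neg_of_add_eq_zero_left h0]
  refine AddSubgroup.neg_mem _ (AddSubgroup.sum_mem _ fun r hr => ?_)
  rw [Finset.mem_filter, hRr, Finset.mem_filter] at hr
  obtain ⟨⟨-, hne, hU⟩, hsum⟩ := hr
  refine AddSubgroup.subset_closure ⟨(List.ofFn fun i => wd (r i)).flatten, ?_, ?_, ?_⟩
  · rw [word_length]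
    have hge : n ≤ ∑ i, (r i).card := by
      calc n = ∑ i : Fin n, 1 := by simp
        _ ≤ _ := Finset.sum_le_sum fun i _ => Finset.card_pos.2 (hne i)
    omega
  · intro i
    obtain ⟨j, hj⟩ := hU i
    rw [List.mem_flatten]
    exact ⟨wd (r j), by rw [List.mem_ofFn]; exact ⟨j, rfl⟩, mem_wd.2 hj⟩
  · exact word_prod x r

end Pool.Agent.Helper21.RB
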