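import Pool.Agent.Helper21.RB.Base

namespace SB

universe u v

variable {Γ : Type u} [Group Γ] {V : Type v} [AddCommGroup V] [Module ℂ V]

/-- RB-A1 (Maschke). -/
theorem exists_compl [FiniteDimensional ℂ V] (ρ : Γ →* (V →ₗ[ℂ] V)) {M : Subgroup Γ} (hM : M.Normal)
    (hf : M.FiniteIndex) (hρ : ∀ g ∈ M, ρ g = 1) (U : Subgroup Γ) {X : Submodule ℂ V} (hX : Stb ρ U X) :
    ∃ Z : Submodule ℂ V, Stb ρ U Z ∧ IsCompl X Z := sorry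

/-- RB-A2. -/
theorem exists_irr [FiniteDimensional ℂ V] (ρ : Γ →* (V →ₗ[ℂ] V)) (N : Subgroup Γ) {Y : Submodule ℂ V}
    (hY : Stb ρ N Y) (h0 : Y ≠ ⊥) : ∃ X ≤ Y, IrrOn ρ N X := sorry

end SB
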