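import Pool.Agent.Helper21.RB.Base

namespace SB

universe u v

variable {Γ : Type u} [Group Γ] {V : Type v} [AddCommGroup V] [Module ℂ V]

/-- RB-B1 (the eigenvector trick). -/
theorem eig_trick [FiniteDimensional ℂ V] (ρ : Γ →* (V →ₗ[ℂ] V)) {L K : Subgroup Γ} {s : Γ} (hLK : L ≤ K)
    (hn : ∀ k ∈ K, ∀ l ∈ L, k * l * k⁻¹ ∈ L) (hs : s ∈ K) (hgen : ∀ k ∈ K, ∃ i : ℕ, (s ^ i)⁻¹ * k ∈ L)
    (hK : IrrOn ρ K ⊤) (hL : ¬ IrrOn ρ L ⊤) {X : Submodule ℂ V} (hX : IrrOn ρ L X) :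
    ¬ IsoOn ρ L X (X.map (ρ s)) := sorry

/-- RB-B2. -/
theorem irr_map (ρ : Γ →* (V →ₗ[ℂ] V)) {L : Subgroup Γ} {g : Γ} (h1 : ∀ l ∈ L, g * l * g⁻¹ ∈ L)
    (h2 : ∀ l ∈ L, g⁻¹ * l * g ∈ L) {X : Submodule ℂ V} (hX : IrrOn ρ L X) : IrrOn ρ L (X.map (ρ g)) := sorry

/-- RB-B3. Pairwise non isomorphic irreducible subspaces are independent. -/
theorem irr_indep [FiniteDimensional ℂ V] {ι : Type*} [Finite ι] (ρ : Γ →* (V →ₗ[ℂ] V)) (L : Subgroup Γ)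
    (X : ι → Submodule ℂ V) (hX : ∀ i, IrrOn ρ L (X i)) (hne : ∀ i j, i ≠ j → ¬ IsoOn ρ L (X i) (X j)) :
    iSupIndep X := sorry

/-- RB-B4. -/
theorem irr_mem [FiniteDimensional ℂ V] {ι : Type*} [Finite ι] (ρ : Γ →* (V →ₗ[ℂ] V)) (L : Subgroup Γ)
    (X : ι → Submodule ℂ V) (hX : ∀ i, IrrOn ρ L (X i)) (hne : ∀ i j, i ≠ j → ¬ IsoOn ρ L (X i) (X j))
    (hsup : ⨆ i, X i = ⊤) {Y : Submodule ℂ V} (hY : IrrOn ρ L Y) : ∃ i, Y = X i := sorry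

end SB
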