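import Pool.Agent.Helper21.RB.Base

namespace SB

universe u

/-- RB-C1. -/
theorem exists_prime_step {G : Type u} [Group G] {p : ℕ} (hp : p.Prime) {N C : Subgroup G} (h : CycP p N C)
    (hf : N.FiniteIndex) {L : Subgroup G} (hL : L.Normal) (hNL : N ≤ L) (hne : L ≠ ⊤) :
    ∃ (K : Subgroup G) (q : ℕ) (t : G), K.Normal ∧ q.Prime ∧ IsStep q L K t := sorry

/-- RB-C2. -/
theorem CycP.sub {G : Type u} [Group G] {p : ℕ} (hp : p.Prime) {N C : Subgroup G} (h : CycP p N C)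
    (hf : N.FiniteIndex) (T : Subgroup G) (hT : N ≤ T) : CycP p (N.subgroupOf T) (C.subgroupOf T) := sorry

/-- RB-C3. -/
theorem cycP_of_abExt {Γ : Type u} [Group Γ] {p : ℕ} {N C U : Subgroup Γ} (hN : N.Normal) (h : AbExt p N C U)
    (hz : ∃ z ∈ C, ∀ c ∈ C, ∃ k : ℕ, (z ^ k)⁻¹ * c ∈ N) : CycP p (N.subgroupOf U) (C.subgroupOf U) := sorry

end SB
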