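import Pool.Agent.Helper21.RB.Base

namespace SB

universe u v

variable {Γ : Type u} [Group Γ] {V : Type v} [AddCommGroup V] [Module ℂ V]

/-- RB-D1. -/
theorem stb_res (ρ : Γ →* (V →ₗ[ℂ] V)) {T : Subgroup Γ} {Y : Submodule ℂ V} (h : Stb ρ T Y) (W : Subgroup T)
    (X : Submodule ℂ Y) : Stb (resRep ρ T Y h) W X ↔ Stb ρ (W.map T.subtype) (X.map Y.subtype) := sorry

/-- RB-D2. -/
theorem irr_res (ρ : Γ →* (V →ₗ[ℂ] V)) {T N : Subgroup Γ} {Y : Submodule ℂ V} (h : Stb ρ T Y) (hN : N ≤ T)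
    (X : Submodule ℂ Y) : IrrOn (resRep ρ T Y h) (N.subgroupOf T) X ↔ IrrOn ρ N (X.map Y.subtype) := sorry

/-- RB-D3. -/
theorem trx_res [FiniteDimensional ℂ V] (ρ : Γ →* (V →ₗ[ℂ] V)) {T : Subgroup Γ} {Y : Submodule ℂ V}
    (h : Stb ρ T Y) (W : Subgroup T) (X : Submodule ℂ Y) (u : T) :
    trx (resRep ρ T Y h) W X u = trx ρ (W.map T.subtype) (X.map Y.subtype) u := sorry

/-- RB-D4. -/
theorem cls_trx [FiniteDimensional ℂ V] (ρ : Γ →* (V →ₗ[ℂ] V)) {U : Subgroup Γ} {X : Submodule ℂ V}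
    (h : Stb ρ U X) : Cls U (trx ρ U X) := sorry

/-- RB-D5. -/
theorem ind_res [FiniteDimensional ℂ V] (ρ : Γ →* (V →ₗ[ℂ] V)) {T : Subgroup Γ} (hT : T.FiniteIndex)
    {Y : Submodule ℂ V} (h : Stb ρ T Y) {m : ℕ} (W : Fin m → Subgroup T) (hW : ∀ k, (W k).FiniteIndex)
    (X : Fin m → Submodule ℂ Y) (hX : ∀ k, Stb (resRep ρ T Y h) (W k) (X k))
    (e : ∀ u : T, LinearMap.trace ℂ Y (resRep ρ T Y h u) = ∑ k, Ind (W k) (trx (resRep ρ T Y h) (W k) (X k)) u)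
    (g : Γ) : Ind T (trx ρ T Y) g = ∑ k, Ind ((W k).map T.subtype) (trx ρ ((W k).map T.subtype) ((X k).map Y.subtype)) g :=
  sorry

end SB
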