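import Pool.Agent.Helper21.RB.Base

namespace SB

universe u v

/-- RB-E1. The number of equivariant maps between two representations of a finite group. -/
theorem sum_hom {Q : Type u} [Group Q] [Finite Q] {X : Type v} [AddCommGroup X] [Module ℂ X]
    [FiniteDimensional ℂ X] {V : Type v} [AddCommGroup V] [Module ℂ V] [FiniteDimensional ℂ V]
    (α : Q →* (X →ₗ[ℂ] X)) (β : Q →* (V →ₗ[ℂ] V)) :
    ∃ H : Submodule ℂ (X →ₗ[ℂ] V), (∀ f, f ∈ H ↔ ∀ q, f ∘ₗ α q = β q ∘ₗ f) ∧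
      ∑ᶠ q : Q, LinearMap.trace ℂ X (α q⁻¹) * LinearMap.trace ℂ V (β q) =
        (Nat.card Q : ℂ) * (Module.finrank ℂ H : ℂ) := sorry

variable {Γ : Type u} [Group Γ] {V : Type v} [AddCommGroup V] [Module ℂ V]

/-- RB-E2. An irreducible subspace occurs in a term of every integral combination of induced characters. -/
theorem occurs [FiniteDimensional ℂ V] (ρ : Γ →* (V →ₗ[ℂ] V)) {M N : Subgroup Γ} (hM : M.Normal)
    (hf : M.FiniteIndex) (hMN : M ≤ N) (hN : N.Normal) (hρ : ∀ g ∈ M, ρ g = 1)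
    {X : Submodule ℂ V} (hX : IrrOn ρ N X) {m : ℕ} (n : Fin m → ℤ) (U : Fin m → Subgroup Γ)
    (hU : ∀ i, N ≤ U i) (e : Fin m → ℕ) (ψ : ∀ i, U i →* ((Fin (e i) → ℂ) →ₗ[ℂ] (Fin (e i) → ℂ)))
    (hψ : ∀ i (u : U i), (u : Γ) ∈ M → ψ i u = 1)
    (hv : ∀ g ∈ N, LinearMap.trace ℂ V (ρ g) =
      ∑ i, (n i : ℂ) * Ind (U i) (exz (U i) fun u => LinearMap.trace ℂ _ (ψ i u)) g) :
    ∃ (i : Fin m) (x : Γ) (Z : Submodule ℂ (Fin (e i) → ℂ)), IrrOn (ψ i) (N.subgroupOf (U i)) Z ∧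
      Module.finrank ℂ X = Module.finrank ℂ Z ∧
      ∀ g ∈ N, ∀ h : x⁻¹ * g * x ∈ U i, trx ρ N X g = trx (ψ i) (N.subgroupOf (U i)) Z ⟨x⁻¹ * g * x, h⟩ := sorry

end SB
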